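import Pool.Agent.NH12.NV.Prim
import Pool.Agent.H385R2.PrimMassM

/-!
# The number of the primitive characters
-/

set_option autoImplicit false

namespace Pool.Agent.NH12.NV

open Finset DirichletCharacter H385 H385.PMM

lemma cM_pos' (M : ℕ) : 0 < cM M := by
  unfold cM c0
  have : 0 < ∏ p ∈ M.primeFactors, ((p : ℝ) ^ 3 / (((p : ℝ) - 1) * ((p : ℝ) + 1) ^ 2)) := by
    refine Finset.prod_pos (fun p hp => ?_)
    have hp2 : 2 ≤ p := (Nat.prime_of_mem_primeFactors hp).two_le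
    have : (2 : ℝ) ≤ p := by exact_mod_cast hp2
    have h1 : 0 < (p : ℝ) - 1 := by linarith
    positivity
  positivity

/-- the radical of `N` -/
def rad (N : ℕ) : ℕ := ∏ p ∈ N.primeFactors, p

theorem rad_squarefree (N : ℕ) : Squarefree (rad N) := by
  unfold rad
  refine Finset.squarefree_prod_of_pairwise_isCoprime ?_ ?_
  · intro p hp q hq hpq
    have h1 := Nat.prime_of_mem_primeFactors hp
    have h2 := Nat.prime_of_mem_primeFactors hq
    show IsRelPrime p q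
    rw [← Nat.coprime_iff_isRelPrime]
    exact (Nat.coprime_primes h1 h2).mpr hpq
  · intro p hp
    exact (Nat.prime_of_mem_primeFactors hp).squarefree

theorem coprime_rad {N : ℕ} (hN : N ≠ 0) (q : ℕ) : Nat.Coprime q (rad N) ↔ Nat.Coprime q N := by
  constructor
  · intro h
    rw [Nat.coprime_comm] at h ⊢
    refine Nat.Coprime.symm (Nat.Coprime.symm ?_)
    refine Nat.coprime_of_dvd fun p hp h1 h2 => ?_
    have h3 : p ∣ rad N := by
      unfold rad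
      exact Finset.dvd_prod_of_mem _ (Nat.mem_primeFactors.mpr ⟨hp, h1, hN⟩)
    exact Nat.Prime.one_lt hp |>.ne' (Nat.Coprime.eq_one_of_dvd (Nat.Coprime.coprime_dvd_left h3 h) h2)
  · intro h
    unfold rad
    refine Nat.Coprime.prod_right fun p hp => ?_
    exact Nat.Coprime.coprime_dvd_right (Nat.dvd_of_mem_primeFactors hp) h

lemma phs_eq (q : ℕ) (hq : 1 ≤ q) : phs q = (pc q).card := by
  classical
  have : NeZero q := ⟨by omega⟩
  rw [phs_eq_filter]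
  unfold pc
  congr!

/-- **a positive proportion of `Q²`** -/
theorem prim_count {N : ℕ} (hN : N ≠ 0) : ∃ (c₁ : ℝ) (Q₀ : ℕ), 0 < c₁ ∧ ∀ Q : ℕ, Q₀ ≤ Q →
    c₁ * (Q : ℝ) ^ 2 ≤ ∑ q ∈ (Icc 2 Q).filter (fun q => Nat.Coprime q N), ((pc q).card : ℝ) := by
  obtain ⟨C, hC, hmass⟩ := prim_mass_M (rad N) (rad_squarefree N)
  have hκ := cM_pos' (rad N)
  set κ := cM (rad N) with hκd
  obtain ⟨B, hB⟩ := exists_nat_ge (Real.exp ((C + 1) / κ))
  have hB1 : (1 : ℝ) ≤ B := le_trans (Real.one_le_exp (by positivity)) hB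
  have hB0 : (0 : ℝ) < B := by linarith
  have hBn : 1 ≤ B := by exact_mod_cast hB1
  have hlB : C + 1 ≤ κ * Real.log B := by
    have h1 : (C + 1) / κ ≤ Real.log B := by
      rw [← Real.log_exp ((C + 1) / κ)]
      exact Real.log_le_log (Real.exp_pos _) hB
    rw [div_le_iff₀ hκ] at h1
    linarith
  refine ⟨1 / (B : ℝ) ^ 2, B, by positivity, fun Q hQ => ?_⟩
  have hQ0 : (0 : ℝ) < Q := by
    have : 0 < Q := by omega
    exact_mod_cast this
  set X : ℕ := Q / B with hX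
  have hX1 : 1 ≤ X := (Nat.one_le_div_iff (by omega)).2 hQ
  have hXQ : X ≤ Q := Nat.div_le_self _ _
  have hX0 : (0 : ℝ) < X := by exact_mod_cast hX1
  have hXB : (X : ℝ) * B ≤ Q := by exact_mod_cast Nat.div_mul_le_self Q B
  have h1 := hmass X Q hX1 hXQ
  have h2 : Real.log B ≤ Real.log ((Q : ℝ) / X) := by
    refine Real.log_le_log hB0 ?_
    rw [le_div_iff₀ hX0]
    linarith
  have h3 : 1 ≤ primFamM (rad N) X Q (fun _ _ => 1) := by
    have h4 := (abs_le.1 h1).1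
    have h5 : κ * Real.log B ≤ κ * Real.log ((Q : ℝ) / X) := by gcongr
    linarith
  rw [primFamM_one] at h3
  have hterm : ∀ q ∈ (Finset.Ioc X Q).filter (fun q => Nat.Coprime q (rad N)),
      (phs q : ℝ) / (q : ℝ) ^ 2 ≤ ((B : ℝ) ^ 2 / (Q : ℝ) ^ 2) * ((pc q).card : ℝ) := by
    intro q hq
    rw [Finset.mem_filter, Finset.mem_Ioc] at hq
    have hq0 : (0 : ℝ) < q := by
      have : 0 < q := by omega
      exact_mod_cast this
    have hqQ : (Q : ℝ) ≤ B * q := by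
      have h6 : Q < B * (X + 1) := by
        have := Nat.lt_mul_div_succ Q (show 0 < B by omega)
        exact this
      have h7 : X + 1 ≤ q := hq.1.1
      have h8 : B * (X + 1) ≤ B * q := Nat.mul_le_mul_left B h7
      exact_mod_cast (h6.trans_le h8).le
    rw [phs_eq q (by omega), div_le_iff₀ (by positivity)]
    have h9 : (Q : ℝ) ^ 2 ≤ (B * q) ^ 2 := pow_le_pow_left₀ hQ0.le hqQ 2
    have h10 : (0 : ℝ) ≤ ((pc q).card : ℝ) := Nat.cast_nonneg _
    have h11 : 1 ≤ (B : ℝ) ^ 2 / (Q : ℝ) ^ 2 * (q : ℝ) ^ 2 := by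
      rw [div_mul_eq_mul_div, le_div_iff₀ (by positivity), one_mul, ← mul_pow]
      exact h9
    calc ((pc q).card : ℝ) = ((pc q).card : ℝ) * 1 := by ring
      _ ≤ ((pc q).card : ℝ) * ((B : ℝ) ^ 2 / (Q : ℝ) ^ 2 * (q : ℝ) ^ 2) := by gcongr
      _ = _ := by ring
  have h4 := h3.trans (Finset.sum_le_sum hterm)
  rw [← Finset.mul_sum] at h4
  have hsub : (Finset.Ioc X Q).filter (fun q => Nat.Coprime q (rad N)) ⊆
      (Icc 2 Q).filter (fun q => Nat.Coprime q N) := by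
    intro q hq
    rw [Finset.mem_filter, Finset.mem_Ioc] at hq
    rw [Finset.mem_filter, Finset.mem_Icc]
    exact ⟨⟨by omega, hq.1.2⟩, (coprime_rad hN q).1 hq.2⟩
  have h5 := Finset.sum_le_sum_of_subset_of_nonneg (f := fun q => ((pc q).card : ℝ)) hsub
    fun _ _ _ => Nat.cast_nonneg _
  have hBQ : 1 / (B : ℝ) ^ 2 * (Q : ℝ) ^ 2 * ((B : ℝ) ^ 2 / (Q : ℝ) ^ 2) = 1 := by
    field_simp
  generalize hS : ∑ q ∈ (Finset.Ioc X Q).filter (fun q => Nat.Coprime q (rad N)),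
    ((pc q).card : ℝ) = S at h4 h5
  have h6 : 1 / (B : ℝ) ^ 2 * (Q : ℝ) ^ 2 ≤ S := by
    calc 1 / (B : ℝ) ^ 2 * (Q : ℝ) ^ 2 = 1 / (B : ℝ) ^ 2 * (Q : ℝ) ^ 2 * 1 := (mul_one _).symm
      _ ≤ 1 / (B : ℝ) ^ 2 * (Q : ℝ) ^ 2 * ((B : ℝ) ^ 2 / (Q : ℝ) ^ 2 * S) :=
          mul_le_mul_of_nonneg_left h4 (by positivity)
      _ = (1 / (B : ℝ) ^ 2 * (Q : ℝ) ^ 2 * ((B : ℝ) ^ 2 / (Q : ℝ) ^ 2)) * S := by ring
      _ = S := by rw [hBQ, one_mul]
  exact h6.trans h5

end Pool.Agent.NH12.NV
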