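import Pool.Agent.NH12.NV.Mol2
import Pool.Agent.NH12.NV.Mass
import Pool.Agent.W305.CY.Weil
import Pool.Agent.W74.CY.WPP
import Pool.Agent.W513.HK.V

/-!
# A positive proportion of the twists does not vanish near the central point
-/

set_option autoImplicit false

namespace Pool.Agent.NH12.NV

open Complex Filter Topology Finset
open Pool.Agent.W192.WO (Newf1)
open Pool.Agent.W192.HK (V0 VH)
open Pool.Agent.R399.TW Pool.Agent.R399.TM Pool.Agent.NH12.BA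
open UpperHalfPlane MatrixGroups CongruenceSubgroup
open scoped ComplexConjugate

lemma sum_idx (N Q : ℕ) (f : (q : ℕ) → DirichletCharacter ℂ q → ℂ) :
    ∑ i ∈ idx N Q, f i.1 i.2 =
      ∑ q ∈ (Icc 2 Q).filter (fun q => Nat.Coprime q N), ∑ χ ∈ pc q, f q χ := by
  classical
  unfold idx pc
  rw [Finset.sum_sigma]

lemma card_idx (N Q : ℕ) : (((idx N Q).card : ℕ) : ℝ) =
    ∑ q ∈ (Icc 2 Q).filter (fun q => Nat.Coprime q N), ((pc q).card : ℝ) := by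
  classical
  unfold idx pc
  rw [Finset.card_sigma]
  push_cast
  rfl

lemma card_idx_le (N Q : ℕ) : (((idx N Q).card : ℕ) : ℝ) ≤ (Q : ℝ) ^ 2 := by
  rw [card_idx]
  have h1 : ∀ q ∈ (Icc 2 Q).filter (fun q => Nat.Coprime q N), ((pc q).card : ℝ) ≤ Q := by
    intro q hq
    rw [Finset.mem_filter, Finset.mem_Icc] at hq
    refine (card_pc_le q (by omega)).trans ?_
    exact_mod_cast hq.1.2
  refine (Finset.sum_le_sum h1).trans ?_
  rw [Finset.sum_const, nsmul_eq_mul, sq]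
  refine mul_le_mul_of_nonneg_right ?_ (Nat.cast_nonneg _)
  have h2 : ((Icc 2 Q).filter (fun q => Nat.Coprime q N)).card ≤ Q := by
    refine (Finset.card_filter_le _ _).trans ?_
    rw [Nat.card_Icc]
    omega
  exact_mod_cast h2

/-- Cauchy's inequality -/
lemma cs_norm {ι : Type} (S : Finset ι) (g : ι → ℂ) :
    ‖∑ i ∈ S, g i‖ ^ 2 ≤ (S.card : ℝ) * ∑ i ∈ S, ‖g i‖ ^ 2 := by
  calc ‖∑ i ∈ S, g i‖ ^ 2 ≤ (∑ i ∈ S, ‖g i‖) ^ 2 :=
        pow_le_pow_left₀ (norm_nonneg _) (norm_sum_le _ _) 2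
    _ ≤ _ := sq_sum_le_card_mul_sum_sq

/-- **the abstract argument** -/
lemma proportion {ι : Type} [DecidableEq ι] (S B : Finset ι) (hB : B ⊆ S) (g : ι → ℂ)
    {c₁ M P : ℝ} (hc₁ : 0 < c₁) (hM : 0 ≤ M) (hP : 0 < P)
    (h1 : c₁ / 2 * P ≤ ‖∑ i ∈ S, g i‖) (h2 : ∑ i ∈ S, ‖g i‖ ^ 2 ≤ M * P)
    (h3 : ∑ i ∈ B, ‖g i‖ ^ 2 ≤ (c₁ / 4) ^ 2 * P) (hS : (S.card : ℝ) ≤ P) :
    c₁ ^ 2 / (16 * (M + 1)) * P ≤ ((S \ B).card : ℝ) := by
  have hsplit : ∑ i ∈ S, g i = ∑ i ∈ S \ B, g i + ∑ i ∈ B, g i :=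
    (Finset.sum_sdiff hB).symm
  have hbad : ‖∑ i ∈ B, g i‖ ≤ c₁ / 4 * P := by
    have h4 : ‖∑ i ∈ B, g i‖ ^ 2 ≤ (c₁ / 4 * P) ^ 2 := by
      calc ‖∑ i ∈ B, g i‖ ^ 2 ≤ (B.card : ℝ) * ∑ i ∈ B, ‖g i‖ ^ 2 := cs_norm B g
        _ ≤ P * ((c₁ / 4) ^ 2 * P) := by
            have h5 : (B.card : ℝ) ≤ P :=
              le_trans (by exact_mod_cast Finset.card_le_card hB) hS
            have h6 : 0 ≤ ∑ i ∈ B, ‖g i‖ ^ 2 := Finset.sum_nonneg fun _ _ => by positivity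
            gcongr
        _ = _ := by ring
    exact (pow_le_pow_iff_left₀ (norm_nonneg _) (by positivity) (by norm_num)).1 h4
  have hgood : c₁ / 4 * P ≤ ‖∑ i ∈ S \ B, g i‖ := by
    have h4 := norm_add_le (∑ i ∈ S \ B, g i) (∑ i ∈ B, g i)
    rw [← hsplit] at h4
    linarith
  have h5 : (c₁ / 4 * P) ^ 2 ≤ ((S \ B).card : ℝ) * (M * P) := by
    calc (c₁ / 4 * P) ^ 2 ≤ ‖∑ i ∈ S \ B, g i‖ ^ 2 :=
          pow_le_pow_left₀ (by positivity) hgood 2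
      _ ≤ ((S \ B).card : ℝ) * ∑ i ∈ S \ B, ‖g i‖ ^ 2 := cs_norm _ g
      _ ≤ ((S \ B).card : ℝ) * (M * P) := by
          have h6 : ∑ i ∈ S \ B, ‖g i‖ ^ 2 ≤ ∑ i ∈ S, ‖g i‖ ^ 2 :=
            Finset.sum_le_sum_of_subset_of_nonneg Finset.sdiff_subset fun _ _ _ => by positivity
          have := h6.trans h2
          gcongr
  have h7 : c₁ ^ 2 / 16 * P ≤ ((S \ B).card : ℝ) * M := by
    have h8 : (c₁ ^ 2 / 16 * P) * P ≤ (((S \ B).card : ℝ) * M) * P := by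
      calc (c₁ ^ 2 / 16 * P) * P = (c₁ / 4 * P) ^ 2 := by ring
        _ ≤ _ := h5
        _ = _ := by ring
    exact le_of_mul_le_mul_right h8 hP
  have h9 : (0 : ℝ) ≤ ((S \ B).card : ℝ) := Nat.cast_nonneg _
  have h10 : c₁ ^ 2 / (16 * (M + 1)) * P = (c₁ ^ 2 / 16 * P) / (M + 1) := by
    field_simp
  rw [h10, div_le_iff₀ (by linarith)]
  nlinarith

/-- **Theorem.** -/
theorem pos_prop {N : ℕ} [NeZero N] {η : DirichletCharacter ℂ N}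
    {f : CuspForm (Gamma1 N : Subgroup (GL (Fin 2) ℝ)) 1} {w : ℂ} (hf : Newf1 N η f w) :
    ∃ F : (q : ℕ) → DirichletCharacter ℂ q → ℂ → ℂ,
      (∀ (q : ℕ) (χ : DirichletCharacter ℂ q), 1 ≤ q → Nat.Coprime q N → χ.IsPrimitive →
        Differentiable ℂ (F q χ) ∧ ∀ s : ℂ, 1 < s.re → HasProd (fun p : Nat.Primes =>
        (1 - χ ((p : ℕ) : ZMod q) * Pool.Agent.W192.CY.cf f p * ((p : ℕ) : ℂ) ^ (-s) +
          χ ((p : ℕ) : ZMod q) ^ 2 * η ((p : ℕ) : ZMod N) *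
            ((p : ℕ) : ℂ) ^ (-2 * s))⁻¹) (F q χ s)) ∧
      ∃ (c₂ κ : ℝ) (Q₀ : ℕ), 0 < c₂ ∧ 0 < κ ∧ ∀ Q : ℕ, Q₀ ≤ Q → c₂ * (Q : ℝ) ^ 2 ≤
        (count N Q (fun q χ => κ / Real.log Q ^ 2 ≤ ‖F q χ (1 / 2)‖ ∧
          ∀ s : ℂ, ‖s - 1 / 2‖ ≤ κ / Real.log Q → F q χ s ≠ 0) : ℝ) := by
  classical
  obtain ⟨c, F, hc2, hLin, hMem, hAfe, hEul⟩ := family_data hf
  refine ⟨F, hEul, ?_⟩
  obtain ⟨D, hD⟩ := cb_newf hf
  obtain ⟨CV, hCV⟩ := Pool.Agent.W513.HK.n_v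
  have hdiv := Pool.Agent.W216.CY.t_div
  have hweil := Pool.Agent.W305.CY.t_weil Pool.Agent.W74.CY.wpp hdiv
  obtain ⟨b₁, b₂, b₃, hw⟩ := exists_wts
  obtain ⟨B, hB0, hB⟩ := am_le hw
  have hNn : N ≠ 0 := NeZero.ne N
  have hN1 : 1 ≤ N := Nat.pos_of_ne_zero hNn
  have hSq : Sqb c (96 * 2 ^ 2) := sqb_of_bdd hc2
  obtain ⟨C₁, hC₁, hmom⟩ := first_moment hCV hdiv hweil hD hN1 hB0
  obtain ⟨C₂, hC₂, hnear⟩ := near2 hw (m := 2) (by norm_num) (c := c) N 15 (96 * 2 ^ 2)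
    (96 * 2 ^ 2)
  obtain ⟨c₁, Q₁, hc₁, hmass⟩ := prim_count hNn
  set M : ℝ := C₂ * 16 * Real.exp 22 with hM
  have hM0 : 0 ≤ M := by positivity
  set κ : ℝ := min 1 (c₁ / (16 * (M + 9))) with hκ
  have hκ0 : 0 < κ := lt_min one_pos (by positivity)
  have hκ1 : κ ≤ 1 := min_le_left _ _
  have hκ2 : (4 * M + 18) * κ ^ 2 ≤ (c₁ / 4) ^ 2 := by
    have h1 : κ ≤ c₁ / (16 * (M + 9)) := min_le_right _ _
    have h2 : κ * (16 * (M + 9)) ≤ c₁ := by rwa [le_div_iff₀ (by positivity)] at h1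
    have h3 : (κ * (16 * (M + 9))) ^ 2 ≤ c₁ ^ 2 := pow_le_pow_left₀ (by positivity) h2 2
    have h4 : 0 ≤ κ ^ 2 := by positivity
    nlinarith [mul_nonneg h4 hM0, mul_nonneg h4 (sq_nonneg M)]
  -- large `Q`
  have hlim : Tendsto (fun Q : ℕ => (Q : ℝ) ^ (1 / 20 : ℝ)) atTop atTop :=
    (tendsto_rpow_atTop (by norm_num)).comp tendsto_natCast_atTop_atTop
  obtain ⟨Q₂, hQ₂⟩ := Filter.eventually_atTop.1 (hlim.eventually_ge_atTop (2 * C₁ / c₁))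
  obtain ⟨Q₃, hQ₃⟩ := exists_nat_ge (Real.exp 7)
  refine ⟨c₁ ^ 2 / (16 * (M + 1)), κ / 4, max (max Q₁ Q₂) (max Q₃ 1), by positivity,
    by positivity, fun Q hQ => ?_⟩
  have hQ1' : Q₁ ≤ Q := (le_max_left _ _).trans ((le_max_left _ _).trans hQ)
  have hQ2' : Q₂ ≤ Q := (le_max_right _ _).trans ((le_max_left _ _).trans hQ)
  have hQ3' : Q₃ ≤ Q := (le_max_left _ _).trans ((le_max_right _ _).trans hQ)
  have hQ1 : 1 ≤ Q := (le_max_right _ _).trans ((le_max_right _ _).trans hQ)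
  have hq1 : (1 : ℝ) ≤ Q := by exact_mod_cast hQ1
  have hq0 : (0 : ℝ) < Q := by linarith
  have hlog7 : 7 ≤ Real.log Q := by
    rw [← Real.log_exp 7]
    refine Real.log_le_log (Real.exp_pos _) (hQ₃.trans ?_)
    exact_mod_cast hQ3'
  set l : ℝ := 1 + Real.log Q with hl
  have hl8 : 8 ≤ l := by rw [hl]; linarith
  have hl0 : 0 < l := by linarith
  -- the data
  have hDat : Dat 2 c N 15 (96 * 2 ^ 2) Q (idx N Q) (fun i => chs i.2) (fun i => F i.1 i.2) := by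
    refine ⟨hQ1, Nat.cast_nonneg _, by norm_num, by norm_num, hLin,
      fun θ h0 h1 => SB_of hSq h0 h1, ls_idx N hQ1, fun i hi => ?_, card_idx_le N Q⟩
    rw [mem_idx] at hi
    have hm := hMem i.1 i.2 hi.1.1 hi.2.1 hi.2.2
    refine hm.mono (by norm_num) ?_
    have h2 : ((i.1 : ℕ) : ℝ) ≤ Q := by exact_mod_cast hi.1.2
    gcongr
  set G : (Σ q : ℕ, DirichletCharacter ℂ q) → ℂ → ℂ :=
    fun i => Gw b₁ l c (chs i.2) (F i.1 i.2) with hG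
  have hQl : Real.exp (2 * l) = Real.exp 2 * (Q : ℝ) ^ 2 := by
    have h1 : (Q : ℝ) ^ 2 = Real.exp (2 * Real.log Q) := by
      rw [← Real.exp_log (show (0 : ℝ) < (Q : ℝ) ^ 2 by positivity), Real.log_pow]
      push_cast
      rfl
    rw [h1, ← Real.exp_add]
    congr 1
    rw [hl]
    ring
  -- the second moment
  have hsec : ∀ s : ℂ, ‖s - 1 / 2‖ ≤ 2 / l → ∑ i ∈ idx N Q, ‖G i s‖ ^ 2 ≤ M * (Q : ℝ) ^ 2 := by
    intro s hs
    have h2l : 2 / l ≤ 1 / 4 := by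
      rw [div_le_iff₀ hl0]
      linarith
    have hre : |s.re - 1 / 2| ≤ 2 / l := by
      have h1 := Complex.abs_re_le_norm (s - 1 / 2)
      have h2 : (s - 1 / 2).re = s.re - 1 / 2 := by simp
      rw [h2] at h1
      exact h1.trans hs
    have him : |s.im| ≤ 1 := by
      have h1 := Complex.abs_im_le_norm (s - 1 / 2)
      have h2 : (s - 1 / 2).im = s.im := by simp
      rw [h2] at h1
      linarith
    have h1 := hnear Q (idx N Q) (fun i => chs i.2) (fun i => F i.1 i.2) l (2 / l) s hDat hSq hl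
      hl8 (by linarith) hre
    refine h1.trans ?_
    have h3 : Real.exp ((2 + 10 * (2 / l)) * l) = Real.exp 22 * (Q : ℝ) ^ 2 := by
      have h4 : (2 + 10 * (2 / l)) * l = 2 * l + 20 := by
        field_simp
        ring
      rw [h4, Real.exp_add, hQl, show (22 : ℝ) = 2 + 20 by norm_num, Real.exp_add]
      ring
    rw [h3]
    have h5 : (1 + |s.im|) ^ (2 * 2) ≤ 16 := by
      have h6 : 1 + |s.im| ≤ 2 := by linarith
      calc (1 + |s.im|) ^ (2 * 2) ≤ (2 : ℝ) ^ (2 * 2) :=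
            pow_le_pow_left₀ (by positivity) h6 _
        _ = 16 := by norm_num
    calc C₂ * (1 + |s.im|) ^ (2 * 2) * (Real.exp 22 * (Q : ℝ) ^ 2)
        ≤ C₂ * 16 * (Real.exp 22 * (Q : ℝ) ^ 2) := by gcongr
      _ = _ := by rw [hM]; ring
  -- the first moment
  have hfirst : c₁ / 2 * (Q : ℝ) ^ 2 ≤ ‖∑ i ∈ idx N Q, G i (1 / 2)‖ := by
    have e1 : ∑ i ∈ idx N Q, G i (1 / 2) =
        ∑ q ∈ (Icc 2 Q).filter (fun q => Nat.Coprime q N), ∑ χ ∈ pc q,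
          F q χ (1 / 2) * ∑ k ∈ Icc 1 (Xl l), am b₁ l c k * χ (k : ZMod q) := by
      rw [← sum_idx N Q (fun q χ => F q χ (1 / 2) *
        ∑ k ∈ Icc 1 (Xl l), am b₁ l c k * χ (k : ZMod q))]
      refine Finset.sum_congr rfl fun i _ => ?_
      exact gw_half l c i.2 (F i.1 i.2)
    have h1 := hmom Q (Xl l) (am b₁ l c)
      (fun q => w * η (q : ZMod N)) (fun q χ => F q χ (1 / 2)) hQ1 (Xl_ge hl0.le)
      (by rw [hl]; exact Xl_le_two hQ1) (am_one hw l c) (fun k hk => hB l c hc2 k hk)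
      (fun q => by
        rw [norm_mul, hf.norm, one_mul]
        exact η.norm_le_one _) hAfe
    rw [Finset.sum_sub_distrib, ← e1] at h1
    have h2 := hmass Q hQ1'
    have h3 : ‖∑ q ∈ (Icc 2 Q).filter (fun q => Nat.Coprime q N), ((pc q).card : ℂ)‖ =
        ∑ q ∈ (Icc 2 Q).filter (fun q => Nat.Coprime q N), ((pc q).card : ℝ) := by
      have h4 : ∑ q ∈ (Icc 2 Q).filter (fun q => Nat.Coprime q N), ((pc q).card : ℂ) =
          ((∑ q ∈ (Icc 2 Q).filter (fun q => Nat.Coprime q N), (pc q).card : ℕ) : ℂ) := by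
        push_cast
        rfl
      rw [h4, Complex.norm_natCast]
      push_cast
      rfl
    have h5 := norm_sub_norm_le (∑ q ∈ (Icc 2 Q).filter (fun q => Nat.Coprime q N),
      ((pc q).card : ℂ)) (∑ i ∈ idx N Q, G i (1 / 2))
    rw [norm_sub_rev, h3] at h5
    have h6 : C₁ * (Q : ℝ) ^ (39 / 20 : ℝ) ≤ c₁ / 2 * (Q : ℝ) ^ 2 := by
      have h7 := hQ₂ Q hQ2'
      rw [div_le_iff₀ hc₁] at h7
      have h8 : (Q : ℝ) ^ 2 = (Q : ℝ) ^ (39 / 20 : ℝ) * (Q : ℝ) ^ (1 / 20 : ℝ) := by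
        rw [← Real.rpow_add hq0, ← Real.rpow_natCast]
        norm_num
      rw [h8]
      have h9 : 0 < (Q : ℝ) ^ (39 / 20 : ℝ) := by positivity
      nlinarith
    linarith
  -- the bad characters
  set S := idx N Q with hS
  set B₁ := S.filter (fun i => ∃ s : ℂ, ‖s - 1 / 2‖ ≤ κ / 4 / Real.log Q ∧ F i.1 i.2 s = 0)
    with hB₁
  set B₂ := S.filter (fun i => ‖F i.1 i.2 (1 / 2)‖ < κ / 4 / Real.log Q ^ 2) with hB₂
  have hB₁S : B₁ ⊆ S := Finset.filter_subset _ _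
  have hB₂S : B₂ ⊆ S := Finset.filter_subset _ _
  have hl2 : l ≤ 2 * Real.log Q := by rw [hl]; linarith
  have hrad : κ / 4 / Real.log Q ≤ κ / l := by
    rw [div_div, div_le_div_iff_of_pos_left hκ0 (by linarith) hl0]
    linarith
  have hrad2 : κ / 4 / Real.log Q ^ 2 ≤ κ / l ^ 2 := by
    have h0 : 0 < Real.log Q := by linarith
    rw [div_div, div_le_div_iff_of_pos_left hκ0 (by positivity) (by positivity)]
    nlinarith
  have hbad1 : ∑ i ∈ B₁, ‖G i (1 / 2)‖ ^ 2 ≤ 4 * M * κ ^ 2 * (Q : ℝ) ^ 2 := by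
    have hDv : ∀ i ∈ B₁, Dv (G i) 1 (1 / 2) (κ / l) := by
      intro i hi
      rw [hB₁, Finset.mem_filter] at hi
      obtain ⟨hi1, s, hs, hFs⟩ := hi
      rw [hS, mem_idx] at hi1
      have hFd : Differentiable ℂ (F i.1 i.2) := (hEul i.1 i.2 (by omega) hi1.2.1 hi1.2.2).1
      have h1 : ((1 : ℕ) : ℕ∞) ≤ analyticOrderAt (F i.1 i.2) s := by
        rw [Nat.cast_one, Order.one_le_iff_ne_zero]
        exact (hFd.analyticAt s).analyticOrderAt_ne_zero.2 hFs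
      have h2 : Dv (F i.1 i.2) 1 s 0 := Dv.of_order hFd le_rfl h1
      have h3 : Dv (F i.1 i.2) 1 (1 / 2) (κ / l) := h2.move (by linarith)
      exact h3.mul (cut_diff _ _) (fun s => rfl)
    have h1 := dv_gen B₁ G (s₁ := 1 / 2) (r := 1 / l) (a := κ / l) (b := 1 / l)
      (B := M * (Q : ℝ) ^ 2) (k := 1) (by positivity) (by positivity) (by positivity)
      (by
        rw [← add_div, mul_one_div]
        gcongr
        linarith) hDv (fun t => by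
        refine le_trans (Finset.sum_le_sum_of_subset_of_nonneg hB₁S fun _ _ _ => by positivity)
          (hsec _ ?_)
        rw [circleMap_sub_center, norm_circleMap_zero, abs_of_pos (by positivity)]
        rw [mul_one_div])
    have h2 : κ / l / (1 / l) = κ := by field_simp
    rw [h2, pow_one] at h1
    refine h1.trans (le_of_eq ?_)
    ring
  have hbad2 : ∑ i ∈ B₂, ‖G i (1 / 2)‖ ^ 2 ≤ 18 * κ ^ 2 * (Q : ℝ) ^ 2 := by
    have h1 : ∀ i ∈ B₂, ‖G i (1 / 2)‖ ^ 2 ≤ (κ / l ^ 2) ^ 2 *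
        ‖∑ k ∈ Icc 1 (Xl l), am b₁ l c k * i.2 (k : ZMod i.1)‖ ^ 2 := by
      intro i hi
      rw [hB₂, Finset.mem_filter] at hi
      have h2 : G i (1 / 2) = F i.1 i.2 (1 / 2) *
          ∑ k ∈ Icc 1 (Xl l), am b₁ l c k * i.2 (k : ZMod i.1) := gw_half l c i.2 (F i.1 i.2)
      rw [h2, norm_mul, mul_pow]
      refine mul_le_mul_of_nonneg_right ?_ (by positivity)
      exact pow_le_pow_left₀ (norm_nonneg _) (hi.2.le.trans hrad2) 2
    refine (Finset.sum_le_sum h1).trans ?_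
    rw [← Finset.mul_sum]
    have h2 := mol_sq hw hc2 (N := N) hQ1 (by linarith)
    rw [← hl] at h2
    have h3 : ∑ i ∈ B₂, ‖∑ k ∈ Icc 1 (Xl l), am b₁ l c k * i.2 (k : ZMod i.1)‖ ^ 2 ≤
        18 * (Q : ℝ) ^ 2 * l ^ 4 :=
      (Finset.sum_le_sum_of_subset_of_nonneg hB₂S fun _ _ _ => by positivity).trans h2
    calc (κ / l ^ 2) ^ 2 * ∑ i ∈ B₂, ‖∑ k ∈ Icc 1 (Xl l), am b₁ l c k * i.2 (k : ZMod i.1)‖ ^ 2
        ≤ (κ / l ^ 2) ^ 2 * (18 * (Q : ℝ) ^ 2 * l ^ 4) := by gcongr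
      _ = 18 * κ ^ 2 * (Q : ℝ) ^ 2 := by
          field_simp
  have hbad : ∑ i ∈ B₁ ∪ B₂, ‖G i (1 / 2)‖ ^ 2 ≤ (c₁ / 4) ^ 2 * (Q : ℝ) ^ 2 := by
    have h1 : ∑ i ∈ B₁ ∪ B₂, ‖G i (1 / 2)‖ ^ 2 ≤
        ∑ i ∈ B₁, ‖G i (1 / 2)‖ ^ 2 + ∑ i ∈ B₂, ‖G i (1 / 2)‖ ^ 2 := by
      have h2 := Finset.sum_union_inter (s₁ := B₁) (s₂ := B₂) (f := fun i => ‖G i (1 / 2)‖ ^ 2)
      have h3 : 0 ≤ ∑ i ∈ B₁ ∩ B₂, ‖G i (1 / 2)‖ ^ 2 := Finset.sum_nonneg fun _ _ => by positivity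
      linarith
    refine h1.trans ((add_le_add hbad1 hbad2).trans ?_)
    calc 4 * M * κ ^ 2 * (Q : ℝ) ^ 2 + 18 * κ ^ 2 * (Q : ℝ) ^ 2
        = ((4 * M + 18) * κ ^ 2) * (Q : ℝ) ^ 2 := by ring
      _ ≤ _ := by gcongr
  have key := proportion S (B₁ ∪ B₂) (Finset.union_subset hB₁S hB₂S) (fun i => G i (1 / 2))
    (P := (Q : ℝ) ^ 2) hc₁ hM0 (by positivity)
    hfirst (hsec (1 / 2) (by simp; positivity)) hbad (card_idx_le N Q)
  have e : S \ (B₁ ∪ B₂) = S.filter (fun i => κ / 4 / Real.log Q ^ 2 ≤ ‖F i.1 i.2 (1 / 2)‖ ∧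
      ∀ s : ℂ, ‖s - 1 / 2‖ ≤ κ / 4 / Real.log Q → F i.1 i.2 s ≠ 0) := by
    ext i
    rw [Finset.mem_sdiff, Finset.mem_union, hB₁, hB₂, Finset.mem_filter, Finset.mem_filter,
      Finset.mem_filter]
    constructor
    · rintro ⟨h1, h2⟩
      refine ⟨h1, not_lt.1 fun h3 => h2 (Or.inr ⟨h1, h3⟩),
        fun s hs h0 => h2 (Or.inl ⟨h1, s, hs, h0⟩)⟩
    · rintro ⟨h1, h2, h3⟩
      refine ⟨h1, ?_⟩
      rintro (⟨-, s, hs, h0⟩ | ⟨-, h4⟩)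
      · exact h3 s hs h0
      · exact absurd h4 (not_lt.2 h2)
  rw [e] at key
  refine key.trans (le_of_eq ?_)
  rw [count_eq]
  congr!

end Pool.Agent.NH12.NV
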