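import Pool.Agent.NH12.NV.Mem1

/-!
# The family of the twists of a newform of weight one
-/

set_option autoImplicit false

namespace Pool.Agent.NH12.NV

open Complex Filter Topology Finset
open Pool.Agent.W192.WO (Newf1)
open Pool.Agent.W192.CY (S_DIV)
open Pool.Agent.W192.HK (V0)
open Pool.Agent.R399.TW
open Pool.Agent.Y767.CA (GGc FEc cf)
open ArithmeticFunction (vonMangoldt)
open UpperHalfPlane MatrixGroups CongruenceSubgroup
open scoped ComplexConjugate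

/-- the coefficients `c(n) √n` -/
noncomputable def cn {N : ℕ} (f : CuspForm (Gamma1 N : Subgroup (GL (Fin 2) ℝ)) 1) (n : ℕ) : ℂ :=
  Pool.Agent.W192.CY.cf f n * (Real.sqrt n : ℂ)

lemma norm_cf_le {α : ℕ → Fin 2 → ℂ} (h : ∀ p j, ‖α p j‖ ≤ 1) (n : ℕ) : ‖cf α n‖ ≤ 2 := by
  unfold cf
  rw [Fin.sum_univ_two]
  refine (norm_add_le _ _).trans ?_
  rw [norm_pow, norm_pow]
  have h1 := pow_le_one₀ (n := n.factorization n.minFac) (norm_nonneg _) (h n.minFac 0)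
  have h2 := pow_le_one₀ (n := n.factorization n.minFac) (norm_nonneg _) (h n.minFac 1)
  linarith

lemma summ_of_bdd {c : ℕ → ℂ} {d : ℝ} (hd : ∀ n, ‖c n‖ ≤ d) {σ : ℝ} (hσ : 1 < σ) :
    Summable fun n : ℕ => vonMangoldt n * ‖c n‖ ^ 2 * (n : ℝ) ^ (-σ) := by
  refine Summable.of_nonneg_of_le (fun n => ?_) (fun n => ?_)
    ((Pool.Agent.Y767.CA.summable_vm hσ).mul_left (d ^ 2))
  · have := vm_nn n
    positivity
  · have h1 := vm_nn n
    have h2 : ‖c n‖ ^ 2 ≤ d ^ 2 := pow_le_pow_left₀ (norm_nonneg _) (hd n) 2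
    calc vonMangoldt n * ‖c n‖ ^ 2 * (n : ℝ) ^ (-σ)
        ≤ vonMangoldt n * d ^ 2 * (n : ℝ) ^ (-σ) := by gcongr
      _ = _ := by ring

theorem family_data {N : ℕ} [NeZero N] {η : DirichletCharacter ℂ N}
    {f : CuspForm (Gamma1 N : Subgroup (GL (Fin 2) ℝ)) 1} {w : ℂ} (hf : Newf1 N η f w) :
    ∃ (c : ℕ → ℂ) (F : (q : ℕ) → DirichletCharacter ℂ q → ℂ → ℂ),
      (∀ n, ‖c n‖ ≤ 2) ∧ Lin c ∧
      (∀ (q : ℕ) (χ : DirichletCharacter ℂ q), 2 ≤ q → Nat.Coprime q N → χ.IsPrimitive →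
        Mem c ((N : ℝ) * (q : ℝ) ^ 2) 15 2 (chs χ) (F q χ)) ∧
      Afe V0 (cn f) N (fun q => w * η (q : ZMod N)) (fun q χ => F q χ (1 / 2)) ∧
      ∀ (q : ℕ) (χ : DirichletCharacter ℂ q), 1 ≤ q → Nat.Coprime q N → χ.IsPrimitive →
        Differentiable ℂ (F q χ) ∧ ∀ s : ℂ, 1 < s.re → HasProd (fun p : Nat.Primes =>
        (1 - χ ((p : ℕ) : ZMod q) * Pool.Agent.W192.CY.cf f p * ((p : ℕ) : ℂ) ^ (-s) +
          χ ((p : ℕ) : ZMod q) ^ 2 * η ((p : ℕ) : ZMod N) *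
            ((p : ℕ) : ℂ) ^ (-2 * s))⁻¹) (F q χ s) := by
  classical
  obtain ⟨α, hα1, hα2⟩ := exists_satake hf
  have hN : (0 : ℝ) < N := by exact_mod_cast Nat.pos_of_ne_zero (NeZero.ne N)
  have hex : ∀ (q : ℕ) (χ : DirichletCharacter ℂ q), ∃ F : ℂ → ℂ,
      (1 ≤ q → Nat.Coprime q N → χ.IsPrimitive →
      FEc ((N : ℝ) * (q : ℝ) ^ 2) mu2 F ∧
      (∀ s : ℂ, 1 < s.re → HasProd (fun p : Nat.Primes =>
        (1 - χ ((p : ℕ) : ZMod q) * Pool.Agent.W192.CY.cf f p * ((p : ℕ) : ℂ) ^ (-s) +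
          χ ((p : ℕ) : ZMod q) ^ 2 * η ((p : ℕ) : ZMod N) *
            ((p : ℕ) : ℂ) ^ (-2 * s))⁻¹) (F s)) ∧
      ∀ (_ : NeZero q), ∀ X Y : ℝ, 0 < X → 0 < Y →
        X * Y = N * (q : ℝ) ^ 2 / (4 * Real.pi ^ 2) →
        F (1 / 2) =
          ∑' n : ℕ, χ (n : ZMod q) * cn f n / n * (V0 (n / X) : ℂ) +
          (w * η (q : ZMod N)) * χ (N : ZMod q) *
              gaussSum χ (ZMod.stdAddChar (N := q)) ^ 2 / q *
            ∑' n : ℕ, (starRingEnd ℂ) (χ (n : ZMod q)) *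
              (starRingEnd ℂ) (cn f n) / n * (V0 (n / Y) : ℂ)) := by
    intro q χ
    by_cases h : 1 ≤ q ∧ Nat.Coprime q N ∧ χ.IsPrimitive
    · obtain ⟨h1, h2, h3⟩ := h
      have : NeZero q := ⟨by omega⟩
      obtain ⟨F, hF1, hF2, hF3⟩ := twist_data hf q χ h2 h3
      exact ⟨F, fun _ _ _ => ⟨hF1, hF2, fun _ => hF3⟩⟩
    · exact ⟨fun _ => 0, fun h1 h2 h3 => absurd ⟨h1, h2, h3⟩ h⟩
  choose F hF using hex
  refine ⟨cf α, F, norm_cf_le hα1,
    fun σ hσ => Pool.Agent.Y767.CA.summable_lin (fun σ hσ => summ_of_bdd (norm_cf_le hα1) hσ) hσ,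
    ?_, ?_, ?_⟩
  · intro q χ hq hqN hχ
    obtain ⟨h1, h2, -⟩ := hF q χ (by omega) hqN hχ
    have hq0 : (0 : ℝ) < q := by
      have : 0 < q := by omega
      exact_mod_cast this
    have hser : ∀ s : ℂ, 1 < s.re → F q χ s = LSeries (tw (chs χ) (E (cf α))) s := by
      refine ser_of_euler (fun p hp j => (hα1 p j).trans ?_)
        (fun σ hσ => summ_of_bdd (norm_cf_le hα1) hσ) (chs_one χ) (chs_mul χ) (chs_le χ) h1.diff
        fun s hs => ?_
      · rw [Real.one_le_sqrt]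
        exact_mod_cast hp.one_lt.le
      · refine (h2 s hs).congr_fun ?_
        intro p
        obtain ⟨e1, e2⟩ := hα2 p p.2
        have e3 : ((p : ℕ) : ℂ) ^ (-2 * s) = (((p : ℕ) : ℂ) ^ (-s)) ^ 2 := by
          rw [← Complex.cpow_nat_mul]
          congr 1
          push_cast
          ring
        rw [Fin.prod_univ_two, ← mul_inv, ← e1, ← e2, e3]
        congr 1
        unfold chs
        ring
    have h3 := mem_of_fec (κ := Fin 2) (R := (N : ℝ) * (q : ℝ) ^ 2) (V := 4) (by positivity)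
      (μ := mu2) (fun i => by fin_cases i <;> simp [mu2] <;> norm_num)
      (fun i => by fin_cases i <;> simp [mu2] <;> norm_num) (by norm_num) h1
      (c := cf α) (ψ := chs χ)
      (fun σ hσ => Pool.Agent.Y767.CA.summable_lin
        (fun σ hσ => summ_of_bdd (norm_cf_le hα1) hσ) hσ)
      (chs_mul χ) (chs_one χ) (chs_le χ) hser
    rw [Fintype.card_fin] at h3
    norm_num at h3
    exact h3
  · intro q _ χ hco hχ X Y hX hY hXY
    have hq1 : 1 ≤ q := Nat.pos_of_ne_zero (NeZero.ne q)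
    exact (hF q χ hq1 hco hχ).2.2 inferInstance X Y hX hY hXY
  · intro q χ hq hco hχ
    obtain ⟨h1, h2, -⟩ := hF q χ hq hco hχ
    exact ⟨h1.diff, h2⟩

/-- the coefficient bound -/
theorem cb_newf {N : ℕ} [NeZero N] {η : DirichletCharacter ℂ N}
    {f : CuspForm (Gamma1 N : Subgroup (GL (Fin 2) ℝ)) 1} {w : ℂ} (hf : Newf1 N η f w) :
    ∃ D : ℝ, Cb (cn f) (1 / 100) D := by
  obtain ⟨μ, hμ⟩ := Pool.Agent.W538.WO.w_coef N η f w hf
  obtain ⟨C, hC0, hC⟩ := Pool.Agent.W216.CY.divisor_bound (1 / 100) (by norm_num)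
  refine ⟨C, ?_, ?_, hC0.le, fun n hn => ?_⟩
  · exact hμ.zero
  · have := hf.one
    unfold cn
    rw [this]
    simp
  · have hn0 : (0 : ℝ) < n := by exact_mod_cast hn
    have h2 := hμ.cle n hn
    have h3 := hC n (by omega)
    rw [div_le_iff₀ hn0]
    have h4 : (n : ℝ) ^ (1 / 100 - 1 / 2 : ℝ) * n = (n : ℝ) ^ (1 / 100 : ℝ) * Real.sqrt n := by
      rw [Real.sqrt_eq_rpow, ← Real.rpow_add hn0]
      conv_lhs => rw [← Real.rpow_one (n : ℝ)]
      rw [← Real.rpow_mul hn0.le, one_mul, ← Real.rpow_add hn0]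
      norm_num
    calc ‖cn f n‖ ≤ n.divisors.card * Real.sqrt n := h2
      _ ≤ (C * (n : ℝ) ^ (1 / 100 : ℝ)) * Real.sqrt n := by gcongr
      _ = _ := by rw [mul_assoc, mul_assoc, h4]

end Pool.Agent.NH12.NV
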