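import Pool.Agent.NH12.NV.Mol

/-!
# The mean square of the mollifier
-/

set_option autoImplicit false

namespace Pool.Agent.NH12.NV

open Complex Filter Topology Finset
open ArithmeticFunction (vonMangoldt)
open Pool.Agent.R399.TW Pool.Agent.R399.TM Pool.Agent.NH12.BA
open scoped ComplexConjugate

lemma sum_E_add {κ κ' : ℕ → ℝ} (h : ∀ n, 0 ≤ κ n) (h' : ∀ n, 0 ≤ κ' n) (N : ℕ) :
    ∑ n ∈ Icc 1 N, E (fun k => κ k + κ' k) n / n ≤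
      (∑ n ∈ Icc 1 N, E κ n / n) * ∑ n ∈ Icc 1 N, E κ' n / n := by
  refine le_trans (le_of_eq ?_) (sum_antidiag_le (N := N) (f := fun n => E κ n / n)
    (g := fun n => E κ' n / n) (fun n => div_nonneg (E_nonneg h n) (Nat.cast_nonneg n))
    (fun n => div_nonneg (E_nonneg h' n) (Nat.cast_nonneg n)))
  refine Finset.sum_congr rfl fun n hn => ?_
  rw [← E_add]
  unfold cv
  rw [Finset.sum_div]
  refine Finset.sum_congr rfl fun p hp => ?_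
  have h3 := (Nat.mem_divisorsAntidiagonal.1 hp).1
  rw [← h3]
  push_cast
  rw [mul_div_mul_comm]

lemma sum_E1 (N : ℕ) : ∑ n ∈ Icc 1 N, E (fun _ => (1 : ℝ)) n / n ≤ 1 + Real.log N := by
  have h1 := harmonic_le_one_add_log N
  rw [harmonic_eq_sum_Icc] at h1
  push_cast at h1
  refine le_trans (le_of_eq ?_) h1
  refine Finset.sum_congr rfl fun n hn => ?_
  rw [E_const_one n (by rw [mem_Icc] at hn; omega), one_div]

lemma sum_E4 {N : ℕ} (hN : 1 ≤ N) :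
    ∑ n ∈ Icc 1 N, E (fun _ => (4 : ℝ)) n / n ≤ (1 + Real.log N) ^ 4 := by
  have hl : 0 ≤ Real.log N := Real.log_nonneg (by exact_mod_cast hN)
  have h1 := sum_E1 N
  have h10 : 0 ≤ ∑ n ∈ Icc 1 N, E (fun _ => (1 : ℝ)) n / n :=
    Finset.sum_nonneg fun n _ => div_nonneg (E_nonneg (fun _ => zero_le_one) n) (Nat.cast_nonneg n)
  have e2 : (fun _ : ℕ => (2 : ℝ)) = fun k : ℕ => (fun _ : ℕ => (1 : ℝ)) k +
      (fun _ => (1 : ℝ)) k := by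
    funext k
    norm_num
  have e4 : (fun _ : ℕ => (4 : ℝ)) = fun k : ℕ => (fun _ : ℕ => (2 : ℝ)) k +
      (fun _ => (2 : ℝ)) k := by
    funext k
    norm_num
  have h2 : ∑ n ∈ Icc 1 N, E (fun _ => (2 : ℝ)) n / n ≤ (1 + Real.log N) ^ 2 := by
    rw [e2]
    refine (sum_E_add (fun _ => zero_le_one) (fun _ => zero_le_one) N).trans ?_
    rw [sq]
    gcongr
  have h20 : 0 ≤ ∑ n ∈ Icc 1 N, E (fun _ => (2 : ℝ)) n / n :=
    Finset.sum_nonneg fun n _ => div_nonneg (E_nonneg (fun _ => by norm_num) n) (Nat.cast_nonneg n)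
  rw [e4]
  refine (sum_E_add (fun _ => by norm_num) (fun _ => by norm_num) N).trans ?_
  rw [show (1 + Real.log N) ^ 4 = (1 + Real.log N) ^ 2 * (1 + Real.log N) ^ 2 by ring]
  gcongr

variable {b₁ b₂ b₃ : ℝ → ℝ}

lemma am_sq (hw : Wts b₁ b₂ b₃) (l : ℝ) {c : ℕ → ℂ} (hc : ∀ n, ‖c n‖ ≤ 2) {k : ℕ} (hk : 1 ≤ k) :
    ‖am b₁ l c k‖ ^ 2 ≤ E (fun _ => (4 : ℝ)) k / k := by
  have hk0 : (0 : ℝ) < k := by exact_mod_cast hk
  have h1 := hw.mw_le l c k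
  have h2 : E (fun n => ‖c n‖) k ≤ E (fun _ => (2 : ℝ)) k :=
    E_mono (fun n => norm_nonneg _) hc k
  have h3 := norm_E_sq_le (𝕜 := ℝ) (fun _ => (2 : ℝ)) k
  have h4 : (fun _ : ℕ => ‖(2 : ℝ)‖ ^ 2) = fun _ => (4 : ℝ) := by
    funext _
    norm_num
  rw [h4] at h3
  have h0 : 0 ≤ E (fun _ => (2 : ℝ)) k := E_nonneg (fun _ => by norm_num) k
  rw [Real.norm_of_nonneg h0] at h3
  unfold am
  rw [norm_mul, mul_pow]
  have h5 : ‖(k : ℂ) ^ (-(1 / 2) : ℂ)‖ ^ 2 = (k : ℝ)⁻¹ := by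
    rw [← Complex.ofReal_natCast, Complex.norm_cpow_eq_rpow_re_of_pos hk0, ← Real.rpow_natCast,
      ← Real.rpow_mul hk0.le, ← Real.rpow_neg_one]
    congr 1
    simp
  rw [h5, div_eq_mul_inv]
  refine mul_le_mul_of_nonneg_right ?_ (by positivity)
  exact (pow_le_pow_left₀ (norm_nonneg _) (h1.trans h2) 2).trans h3

/-- the mean square of the mollifier over the family -/
theorem mol_sq (hw : Wts b₁ b₂ b₃) {c : ℕ → ℂ} (hc : ∀ n, ‖c n‖ ≤ 2) {N Q : ℕ} (hQ : 1 ≤ Q)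
    (hl8 : 8 ≤ 1 + Real.log Q) :
    ∑ i ∈ idx N Q, ‖∑ k ∈ Icc 1 (Xl (1 + Real.log Q)),
      am b₁ (1 + Real.log Q) c k * i.2 (k : ZMod i.1)‖ ^ 2 ≤
      18 * (Q : ℝ) ^ 2 * (1 + Real.log Q) ^ 4 := by
  set l := 1 + Real.log Q with hl
  set K := Xl l with hK
  have hq1 : (1 : ℝ) ≤ Q := by exact_mod_cast hQ
  have hq0 : (0 : ℝ) < Q := by linarith
  have hK1 : 1 ≤ K := Xl_ge (by linarith)
  have hK0 : (0 : ℝ) < K := by exact_mod_cast hK1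
  have h1 := (ls_idx N hQ).ls K (am b₁ l c)
  rw [Real.rpow_zero, mul_one] at h1
  have h2 : (K : ℝ) ≤ 2 * (Q : ℝ) ^ 2 := by
    refine (Xl_le_two hQ).trans ?_
    have h3 : (Q : ℝ) ^ (1 / 8 : ℝ) ≤ (Q : ℝ) ^ (2 : ℝ) :=
      Real.rpow_le_rpow_of_exponent_le hq1 (by norm_num)
    have h4 : (Q : ℝ) ^ (2 : ℝ) = (Q : ℝ) ^ 2 := by
      rw [← Real.rpow_natCast]
      norm_num
    rw [h4] at h3
    gcongr
  have h3 : ∑ n ∈ Icc 1 K, ‖am b₁ l c n‖ ^ 2 ≤ l ^ 4 := by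
    have h4 : ∑ n ∈ Icc 1 K, ‖am b₁ l c n‖ ^ 2 ≤
        ∑ n ∈ Icc 1 K, E (fun _ => (4 : ℝ)) n / n :=
      Finset.sum_le_sum fun n hn => am_sq hw l hc (mem_Icc.1 hn).1
    refine h4.trans ((sum_E4 hK1).trans ?_)
    have h5 : Real.log K ≤ 1 / 8 * l := by
      rw [← Real.log_exp (1 / 8 * l)]
      exact Real.log_le_log hK0 (Xl_le l)
    have h6 : 0 ≤ Real.log K := Real.log_nonneg (by exact_mod_cast hK1)
    refine pow_le_pow_left₀ (by linarith) ?_ 4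
    linarith
  have h5 : 0 ≤ ∑ n ∈ Icc 1 K, ‖am b₁ l c n‖ ^ 2 := Finset.sum_nonneg fun _ _ => by positivity
  calc ∑ i ∈ idx N Q, ‖∑ k ∈ Icc 1 K, am b₁ l c k * i.2 (k : ZMod i.1)‖ ^ 2
      ≤ 6 * ((Q : ℝ) ^ 2 + K) * ∑ n ∈ Icc 1 K, ‖am b₁ l c n‖ ^ 2 := h1
    _ ≤ 6 * ((Q : ℝ) ^ 2 + 2 * (Q : ℝ) ^ 2) * l ^ 4 := by gcongr
    _ = _ := by ring

end Pool.Agent.NH12.NV
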