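import Pool.Agent.NH12.NV.Prim
import Pool.Agent.W215.CY.Kloo

/-!
# Kloosterman sums on average over the primitive characters
-/

set_option autoImplicit false

namespace Pool.Agent.NH12.NV

open Finset DirichletCharacter Pool.Agent.W192.CY Pool.Agent.W215.CYKloo

lemma count_one {q d : ℕ} (hd : d ∣ q) (hd0 : 0 < d) :
    ((range q).filter fun v => ((v : ℕ) : ZMod d) = 1).card ≤ q / d := by
  have h : ∀ v ∈ (range q).filter (fun v => ((v : ℕ) : ZMod d) = 1), v / d ∈ range (q / d) := by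
    intro v hv
    rw [Finset.mem_filter, Finset.mem_range] at hv
    rw [Finset.mem_range]
    exact Nat.div_lt_div_of_lt_of_dvd hd hv.1
  have h2 : Set.InjOn (fun v => v / d) ((range q).filter (fun v => ((v : ℕ) : ZMod d) = 1)) := by
    intro v hv v' hv' hvv
    rw [Finset.mem_coe, Finset.mem_filter] at hv hv'
    have e1 : v % d = v' % d := by
      have : ((v : ℕ) : ZMod d) = ((v' : ℕ) : ZMod d) := by rw [hv.2, hv'.2]
      exact (ZMod.natCast_eq_natCast_iff' v v' d).1 this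
    have e2 : v / d = v' / d := hvv
    rw [← Nat.div_add_mod v d, ← Nat.div_add_mod v' d, e1, e2]
  have h3 := Finset.card_le_card_of_injOn (fun v => v / d) h h2
  rwa [Finset.card_range] at h3

lemma units_count {q : ℕ} [NeZero q] {d : ℕ} (hd : d ∣ q) (hd0 : 0 < d) :
    ((Finset.univ : Finset (ZMod q)ˣ).filter
      fun x : (ZMod q)ˣ => (((x : ZMod q).val : ℕ) : ZMod d) = 1).card ≤ q / d := by
  refine le_trans ?_ (count_one hd hd0)
  refine Finset.card_le_card_of_injOn (fun x : (ZMod q)ˣ => (x : ZMod q).val)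
    (fun x hx => ?_) ?_
  · rw [Finset.mem_coe, Finset.mem_filter] at hx
    rw [Finset.mem_coe, Finset.mem_filter, Finset.mem_range]
    exact ⟨ZMod.val_lt _, hx.2⟩
  · intro x _ y _ hxy
    exact Units.ext (ZMod.val_injective q hxy)

lemma sum_units_le (q : ℕ) [NeZero q] :
    ∑ x : (ZMod q)ˣ, ‖∑ χ ∈ pc q, χ (x : ZMod q)‖ ≤ (q.divisors.card : ℝ) * q := by
  classical
  have hq : 0 < q := Nat.pos_of_ne_zero (NeZero.ne q)
  have h1 : ∀ x : (ZMod q)ˣ, ‖∑ χ ∈ pc q, χ (x : ZMod q)‖ ≤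
      ∑ d ∈ q.divisors, if (((x : ZMod q).val : ℕ) : ZMod d) = 1 then (Nat.totient d : ℝ) else 0 := by
    intro x
    have e1 : (((x : ZMod q).val : ℕ) : ZMod q) = x := ZMod.natCast_zmod_val _
    have e2 : Nat.Coprime (x : ZMod q).val q := by
      rw [← ZMod.isUnit_iff_coprime, e1]
      exact x.isUnit
    have h2 := norm_sp_le hq e2
    rw [sp_eq, e1, Finset.sum_filter] at h2
    exact h2
  refine (Finset.sum_le_sum fun x _ => h1 x).trans ?_
  rw [Finset.sum_comm]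
  have h3 : ∀ d ∈ q.divisors, ∑ x : (ZMod q)ˣ,
      (if (((x : ZMod q).val : ℕ) : ZMod d) = 1 then (Nat.totient d : ℝ) else 0) ≤ (q : ℝ) := by
    intro d hd
    have hdq := Nat.dvd_of_mem_divisors hd
    have hd0 : 0 < d := Nat.pos_of_mem_divisors hd
    rw [← Finset.sum_filter, Finset.sum_const, nsmul_eq_mul]
    have h4 : (((Finset.univ : Finset (ZMod q)ˣ).filter
      fun x : (ZMod q)ˣ => (((x : ZMod q).val : ℕ) : ZMod d) = 1).card : ℝ) ≤
        ((q / d : ℕ) : ℝ) := by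
      exact_mod_cast units_count hdq hd0
    have h5 : (Nat.totient d : ℝ) ≤ d := by exact_mod_cast Nat.totient_le d
    calc _ ≤ ((q / d : ℕ) : ℝ) * (d : ℝ) := mul_le_mul h4 h5 (by positivity) (by positivity)
      _ = q := by exact_mod_cast Nat.div_mul_cancel hdq
  refine (Finset.sum_le_sum h3).trans (le_of_eq ?_)
  rw [Finset.sum_const, nsmul_eq_mul]

/-- Kloosterman sums on average over the primitive characters -/
theorem kloo_prim (hw : G_WEIL) : ∀ η : ℝ, 0 < η → ∃ C : ℝ, 0 < C ∧ ∀ (q : ℕ) [NeZero q]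
    (y : (ZMod q)ˣ),
    ‖∑ χ ∈ pc q, χ (y : ZMod q) * gaussSum χ (ZMod.stdAddChar (N := q)) ^ 2‖ ≤
      C * ((q.divisors.card : ℝ) * q) * (q : ℝ) ^ (1 / 2 + η) := by
  intro η hη
  obtain ⟨C, hC, hb⟩ := hw η hη
  refine ⟨C, hC, ?_⟩
  intro q _ y
  have e1 : ∑ χ ∈ pc q, χ (y : ZMod q) * gaussSum χ (ZMod.stdAddChar (N := q)) ^ 2 =
      ∑ h : (ZMod q)ˣ, (∑ χ ∈ pc q, χ (h : ZMod q)) *
        ∑ u : (ZMod q)ˣ, (ZMod.stdAddChar (N := q)
        (1 * (u : ZMod q) + ((h * y⁻¹ : (ZMod q)ˣ) : ZMod q) *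
          ((u⁻¹ : (ZMod q)ˣ) : ZMod q)) : ℂ) := by
    simp_rw [one_, Finset.sum_mul (pc q)]
    rw [Finset.sum_comm]
  rw [e1]
  calc _ ≤ ∑ x : (ZMod q)ˣ, ‖∑ χ ∈ pc q, χ (x : ZMod q)‖ * (C * (q : ℝ) ^ (1 / 2 + η)) := by
        refine (norm_sum_le _ _).trans (Finset.sum_le_sum fun x _ => ?_)
        rw [norm_mul]
        exact mul_le_mul le_rfl (hb q 1 _ (Units.isUnit _)) (norm_nonneg _) (norm_nonneg _)
    _ ≤ ((q.divisors.card : ℝ) * q) * (C * (q : ℝ) ^ (1 / 2 + η)) := by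
        rw [← Finset.sum_mul]
        exact mul_le_mul_of_nonneg_right (sum_units_le q) (by positivity)
    _ = _ := by ring

end Pool.Agent.NH12.NV
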