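import Pool.Agent.NH12.NV.Moment

/-!
# The first moment over all moduli
-/

set_option autoImplicit false

namespace Pool.Agent.NH12.NV

open Finset DirichletCharacter Pool.Agent.W192.CY Pool.Agent.W192.HK
open scoped ComplexConjugate

variable {V : ℝ → ℝ} {CV : ℝ} {c : ℕ → ℂ}

/-- the values are given by the approximate functional equation -/
def Afe (V : ℝ → ℝ) (c : ℕ → ℂ) (N : ℕ) (W : ℕ → ℂ)
    (L : (q : ℕ) → DirichletCharacter ℂ q → ℂ) : Prop :=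
  ∀ (q : ℕ) [NeZero q] (χ : DirichletCharacter ℂ q), Nat.Coprime q N → χ.IsPrimitive →
    ∀ X Y : ℝ, 0 < X → 0 < Y → X * Y = N * (q : ℝ) ^ 2 / (4 * Real.pi ^ 2) →
      L q χ = ∑' n : ℕ, χ (n : ZMod q) * c n / n * (V (n / X) : ℂ) +
        W q * χ (N : ZMod q) * gaussSum χ (ZMod.stdAddChar (N := q)) ^ 2 / q *
          ∑' n : ℕ, conj (χ (n : ZMod q)) * conj (c n) / n * (V (n / Y) : ℂ)

/-- the dual part of one modulus -/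
lemma dual_q (hCV : 0 ≤ CV) {D Cd Cw B : ℝ} (hB : 0 ≤ B) (hCw : 0 ≤ Cw) (hCd0 : 0 ≤ Cd)
    (hCd : ∀ n : ℕ, 1 ≤ n → (n.divisors.card : ℝ) ≤ Cd * (n : ℝ) ^ (1 / 100 : ℝ))
    (h : Cb c (1 / 100) D) {N : ℕ} (hN : 1 ≤ N) {K q : ℕ} (hq : 1 ≤ q) :
    (K : ℝ) * (B * ((Cw * ((q.divisors.card : ℝ) * q) * (q : ℝ) ^ (1 / 2 + 1 / 100 : ℝ)) / q) *
      (CV * ∑' n : ℕ, Un c (2 * (N * (q : ℝ) ^ (1 / 2 : ℝ) / (4 * Real.pi ^ 2))) n)) ≤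
    K * (B * Cw * Cd * CV * D * N * (∑' n : ℕ, (n : ℝ) ^ (-(1 + 1 / 100) : ℝ))) *
      (q : ℝ) ^ (157 / 200 : ℝ) := by
  have hq0 : (0 : ℝ) < q := by exact_mod_cast hq
  have hN1 : (1 : ℝ) ≤ N := by exact_mod_cast hN
  have hN0 : (0 : ℝ) < N := by linarith
  have hpi := Real.pi_gt_three
  have hD := h.D0
  set Y : ℝ := N * (q : ℝ) ^ (1 / 2 : ℝ) / (4 * Real.pi ^ 2) with hY
  have hY0 : 0 < Y := by positivity
  obtain ⟨-, -, -, t1⟩ := Un_sum (η := 1 / 100) (by norm_num) le_rfl h (Z := 2 * Y) (by positivity)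
  set S : ℝ := ∑' n : ℕ, (n : ℝ) ^ (-(1 + 1 / 100) : ℝ) with hS
  have hS0 : 0 ≤ S := tsum_nonneg fun n => by positivity
  have h1 : (2 * Y) ^ (1 / 2 + 3 * (1 / 100) : ℝ) ≤ N * (q : ℝ) ^ (53 / 200 : ℝ) := by
    have h2 : 2 * Y ≤ N * (q : ℝ) ^ (1 / 2 : ℝ) := by
      rw [hY, ← mul_div_assoc, div_le_iff₀ (by positivity)]
      have h0 : (2 : ℝ) ≤ 4 * Real.pi ^ 2 := by nlinarith
      calc 2 * (N * (q : ℝ) ^ (1 / 2 : ℝ)) = N * (q : ℝ) ^ (1 / 2 : ℝ) * 2 := by ring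
        _ ≤ _ := by gcongr
    calc (2 * Y) ^ (1 / 2 + 3 * (1 / 100) : ℝ)
        ≤ (N * (q : ℝ) ^ (1 / 2 : ℝ)) ^ (1 / 2 + 3 * (1 / 100) : ℝ) :=
          Real.rpow_le_rpow (by positivity) h2 (by norm_num)
      _ = (N : ℝ) ^ (1 / 2 + 3 * (1 / 100) : ℝ) * (q : ℝ) ^ (53 / 200 : ℝ) := by
          rw [Real.mul_rpow hN0.le (by positivity), ← Real.rpow_mul hq0.le]
          norm_num
      _ ≤ N * (q : ℝ) ^ (53 / 200 : ℝ) := by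
          have := Real.rpow_le_rpow_of_exponent_le hN1
            (show (1 / 2 + 3 * (1 / 100) : ℝ) ≤ 1 by norm_num)
          rw [Real.rpow_one] at this
          gcongr
  have h2 : (Cw * ((q.divisors.card : ℝ) * q) * (q : ℝ) ^ (1 / 2 + 1 / 100 : ℝ)) / q ≤
      Cw * Cd * (q : ℝ) ^ (52 / 100 : ℝ) := by
    rw [div_le_iff₀ hq0]
    have h3 := hCd q hq
    have h4 : (q : ℝ) ^ (52 / 100 : ℝ) =
        (q : ℝ) ^ (1 / 100 : ℝ) * (q : ℝ) ^ (1 / 2 + 1 / 100 : ℝ) := by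
      rw [← Real.rpow_add hq0]
      norm_num
    rw [h4]
    calc Cw * ((q.divisors.card : ℝ) * q) * (q : ℝ) ^ (1 / 2 + 1 / 100 : ℝ)
        ≤ Cw * ((Cd * (q : ℝ) ^ (1 / 100 : ℝ)) * q) * (q : ℝ) ^ (1 / 2 + 1 / 100 : ℝ) := by
          gcongr
      _ = _ := by ring
  have h5 : ∑' n : ℕ, Un c (2 * Y) n ≤ D * (N * (q : ℝ) ^ (53 / 200 : ℝ)) * S := by
    refine t1.trans ?_
    gcongr
  have h6 : (q : ℝ) ^ (157 / 200 : ℝ) = (q : ℝ) ^ (52 / 100 : ℝ) * (q : ℝ) ^ (53 / 200 : ℝ) := by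
    rw [← Real.rpow_add hq0]
    norm_num
  rw [h6]
  have h7 : 0 ≤ ∑' n : ℕ, Un c (2 * Y) n := tsum_nonneg fun n => Un_nn c _ n
  calc (K : ℝ) * (B * ((Cw * ((q.divisors.card : ℝ) * q) * (q : ℝ) ^ (1 / 2 + 1 / 100 : ℝ)) / q) *
        (CV * ∑' n : ℕ, Un c (2 * Y) n))
      ≤ (K : ℝ) * (B * (Cw * Cd * (q : ℝ) ^ (52 / 100 : ℝ)) *
        (CV * (D * (N * (q : ℝ) ^ (53 / 200 : ℝ)) * S))) := by gcongr
    _ = _ := by ring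

lemma card_pc_le (q : ℕ) (hq : 1 ≤ q) : ((pc q).card : ℝ) ≤ q := by
  classical
  have : NeZero q := ⟨by omega⟩
  have h1 : (pc q).card ≤ Fintype.card (DirichletCharacter ℂ q) := by
    unfold pc
    exact (Finset.card_filter_le _ _).trans (le_of_eq Finset.card_univ)
  have h2 : Fintype.card (DirichletCharacter ℂ q) = q.totient := by
    rw [← Nat.card_eq_fintype_card]
    exact DirichletCharacter.card_eq_totient_of_hasEnoughRootsOfUnity ℂ q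
  have h3 := Nat.totient_le q
  exact_mod_cast h1.trans (h2.le.trans h3)

/-- one modulus -/
lemma one_q (hV : VH V CV) {D Cd Cw B : ℝ} (hB : 0 ≤ B) (hCw : 0 ≤ Cw) (hCd0 : 0 ≤ Cd)
    (hCd : ∀ n : ℕ, 1 ≤ n → (n.divisors.card : ℝ) ≤ Cd * (n : ℝ) ^ (1 / 100 : ℝ))
    (h : Cb c (1 / 100) D) {N : ℕ} (hN : 1 ≤ N) {K q : ℕ} (hK : 1 ≤ K) (hq : 1 ≤ q)
    (hco : Nat.Coprime q N)
    (hk : ∀ (_ : NeZero q) (y : (ZMod q)ˣ),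
      ‖∑ χ ∈ pc q, χ (y : ZMod q) * gaussSum χ (ZMod.stdAddChar (N := q)) ^ 2‖ ≤
        Cw * ((q.divisors.card : ℝ) * q) * (q : ℝ) ^ (1 / 2 + 1 / 100 : ℝ))
    {a : ℕ → ℂ} (ha1 : a 1 = 1) (ha : ∀ k, 1 ≤ k → ‖a k‖ ≤ B) {W : ℕ → ℂ} (hW : ‖W q‖ ≤ 1)
    {L : (q : ℕ) → DirichletCharacter ℂ q → ℂ} (hL : Afe V c N W L) :
    ‖∑ χ ∈ pc q, L q χ * (∑ k ∈ Icc 1 K, a k * χ (k : ZMod q)) - ((pc q).card : ℂ)‖ ≤
      ∑ k ∈ Icc 1 K, ∑' n : ℕ,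
        B * CV * Un c (2 * (q : ℝ) ^ (3 / 2 : ℝ)) n * Gm (n * k) q +
      K * (B * Cw * Cd * CV * D * N * (∑' n : ℕ, (n : ℝ) ^ (-(1 + 1 / 100) : ℝ))) *
        (q : ℝ) ^ (157 / 200 : ℝ) + CV * (q : ℝ) ^ (1 / 4 : ℝ) := by
  have : NeZero q := ⟨by omega⟩
  have hCV := hV.pos
  have hq0 : (0 : ℝ) < q := by exact_mod_cast hq
  have hN0 : (0 : ℝ) < N := by exact_mod_cast hN
  have hpi := Real.pi_pos
  set X : ℝ := (q : ℝ) ^ (3 / 2 : ℝ) with hX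
  have hX0 : 0 < X := by positivity
  set Y : ℝ := N * (q : ℝ) ^ (1 / 2 : ℝ) / (4 * Real.pi ^ 2) with hY
  have hY0 : 0 < Y := by positivity
  have hXY : X * Y = N * (q : ℝ) ^ 2 / (4 * Real.pi ^ 2) := by
    have h1 : (q : ℝ) ^ (3 / 2 : ℝ) * (q : ℝ) ^ (1 / 2 : ℝ) = (q : ℝ) ^ 2 := by
      rw [← Real.rpow_add hq0, ← Real.rpow_natCast]
      norm_num
    rw [hX, hY, ← h1]
    ring
  obtain ⟨-, sX, -, -⟩ := Un_sum (η := 1 / 100) (by norm_num) le_rfl h (Z := 2 * X) (by positivity)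
  obtain ⟨-, sY, -, -⟩ := Un_sum (η := 1 / 100) (by norm_num) le_rfl h (Z := 2 * Y) (by positivity)
  have m1 := part_main hV h.z h.o (q := q) hK ha1 ha hX0 sX
  have m2 := part_dual hV hco (K := K) hB ha hY0 sY hW (KB := Cw * ((q.divisors.card : ℝ) * q) *
    (q : ℝ) ^ (1 / 2 + 1 / 100 : ℝ)) (by positivity) (hk inferInstance)
  have m3 := dual_q hCV.le hB hCw hCd0 hCd h hN (K := K) hq
  have hsplit : ∑ χ ∈ pc q, L q χ * (∑ k ∈ Icc 1 K, a k * χ (k : ZMod q)) =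
      ∑ χ ∈ pc q, (∑' n : ℕ, χ (n : ZMod q) * c n / n * (V (n / X) : ℂ)) *
        (∑ k ∈ Icc 1 K, a k * χ (k : ZMod q)) +
      ∑ χ ∈ pc q, (W q * χ (N : ZMod q) * gaussSum χ (ZMod.stdAddChar (N := q)) ^ 2 / q *
          ∑' n : ℕ, conj (χ (n : ZMod q)) * conj (c n) / n * (V (n / Y) : ℂ)) *
        (∑ k ∈ Icc 1 K, a k * χ (k : ZMod q)) := by
    rw [← Finset.sum_add_distrib]
    refine Finset.sum_congr rfl fun χ hχ => ?_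
    rw [hL q χ hco (mem_pc.1 hχ) X Y hX0 hY0 hXY, add_mul]
  have m4 : ‖(V (1 / X) : ℂ) * ((pc q).card : ℂ) - ((pc q).card : ℂ)‖ ≤
      CV * (q : ℝ) ^ (1 / 4 : ℝ) := by
    have h1 : (V (1 / X) : ℂ) * ((pc q).card : ℂ) - ((pc q).card : ℂ) =
        ((-(1 - V (1 / X)) : ℝ) : ℂ) * ((pc q).card : ℂ) := by
      push_cast
      ring
    rw [h1, norm_mul, Complex.norm_real, Complex.norm_natCast, Real.norm_eq_abs, abs_neg]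
    have h2 := hV.one (1 / X) (by positivity)
    have h3 : Real.sqrt (1 / X) * q = (q : ℝ) ^ (1 / 4 : ℝ) := by
      rw [Real.sqrt_eq_rpow, one_div, hX, ← Real.rpow_neg hq0.le, ← Real.rpow_mul hq0.le]
      have h4 : (q : ℝ) ^ (-(3 / 2) * (1 / 2) : ℝ) * (q : ℝ) =
          (q : ℝ) ^ (-(3 / 2) * (1 / 2) : ℝ) * (q : ℝ) ^ (1 : ℝ) := by rw [Real.rpow_one]
      rw [h4, ← Real.rpow_add hq0]
      norm_num
    calc |1 - V (1 / X)| * ((pc q).card : ℝ) ≤ (CV * Real.sqrt (1 / X)) * q := by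
          have := card_pc_le q hq
          gcongr
      _ = CV * (Real.sqrt (1 / X) * q) := by ring
      _ = _ := by rw [h3]
  rw [hsplit]
  set A₁ : ℂ := ∑ χ ∈ pc q, (∑' n : ℕ, χ (n : ZMod q) * c n / n * (V (n / X) : ℂ)) *
        (∑ k ∈ Icc 1 K, a k * χ (k : ZMod q)) with hA₁
  set A₂ : ℂ := ∑ χ ∈ pc q, (W q * χ (N : ZMod q) * gaussSum χ (ZMod.stdAddChar (N := q)) ^ 2 / q *
          ∑' n : ℕ, conj (χ (n : ZMod q)) * conj (c n) / n * (V (n / Y) : ℂ)) *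
        (∑ k ∈ Icc 1 K, a k * χ (k : ZMod q)) with hA₂
  have e : A₁ + A₂ - ((pc q).card : ℂ) = (A₁ - (V (1 / X) : ℂ) * ((pc q).card : ℂ)) + A₂ +
      ((V (1 / X) : ℂ) * ((pc q).card : ℂ) - ((pc q).card : ℂ)) := by ring
  rw [e]
  refine (norm_add_le _ _).trans (add_le_add ((norm_add_le _ _).trans (add_le_add m1 ?_)) m4)
  exact m2.trans m3

/-- **the first moment** -/
theorem first_moment (hV : VH V CV) (hdiv : S_DIV) (hweil : G_WEIL) {D : ℝ}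
    (h : Cb c (1 / 100) D) {N : ℕ} (hN : 1 ≤ N) {B : ℝ} (hB : 0 ≤ B) : ∃ C : ℝ, 0 ≤ C ∧
    ∀ (Q K : ℕ) (a : ℕ → ℂ) (W : ℕ → ℂ) (L : (q : ℕ) → DirichletCharacter ℂ q → ℂ), 1 ≤ Q → 1 ≤ K →
      (K : ℝ) ≤ 2 * (Q : ℝ) ^ (1 / 8 : ℝ) → a 1 = 1 → (∀ k, 1 ≤ k → ‖a k‖ ≤ B) →
      (∀ q, ‖W q‖ ≤ 1) → Afe V c N W L →
      ‖∑ q ∈ (Icc 2 Q).filter (fun q => Nat.Coprime q N),
        (∑ χ ∈ pc q, L q χ * (∑ k ∈ Icc 1 K, a k * χ (k : ZMod q)) - ((pc q).card : ℂ))‖ ≤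
        C * (Q : ℝ) ^ (39 / 20 : ℝ) := by
  obtain ⟨Cd, hCd0, hCd, -⟩ := hdiv (1 / 100) (by norm_num)
  obtain ⟨Cw, hCw0, hCw⟩ := kloo_prim hweil (1 / 100) (by norm_num)
  have hCV := hV.pos
  have hD := h.D0
  have hN0 : (0 : ℝ) < N := by exact_mod_cast hN
  set S : ℝ := ∑' n : ℕ, (n : ℝ) ^ (-(1 + 1 / 100) : ℝ) with hS
  have hS0 : 0 ≤ S := tsum_nonneg fun n => by positivity
  set C₁ : ℝ := 8 * (B * CV * Cd * (D * S)) with hC₁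
  set C₂ : ℝ := B * Cw * Cd * CV * D * N * S with hC₂
  have hC₁0 : 0 ≤ C₁ := by positivity
  have hC₂0 : 0 ≤ C₂ := by positivity
  refine ⟨C₁ + 2 * C₂ + CV, by positivity, ?_⟩
  intro Q K a W L hQ hK hKQ ha1 ha hW hL
  have hQ1 : (1 : ℝ) ≤ Q := by exact_mod_cast hQ
  have hQ0 : (0 : ℝ) < Q := by linarith
  have hK0 : (0 : ℝ) < K := by exact_mod_cast hK
  set J := (Icc 2 Q).filter (fun q => Nat.Coprime q N) with hJ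
  have hJs : J ⊆ Icc 1 Q := by
    intro q hq
    rw [hJ, Finset.mem_filter, mem_Icc] at hq
    rw [mem_Icc]
    exact ⟨by omega, hq.1.2⟩
  have hone : ∀ q ∈ J, ‖∑ χ ∈ pc q, L q χ * (∑ k ∈ Icc 1 K, a k * χ (k : ZMod q)) -
      ((pc q).card : ℂ)‖ ≤
      ∑ k ∈ Icc 1 K, ∑' n : ℕ,
        B * CV * Un c (2 * (q : ℝ) ^ (3 / 2 : ℝ)) n * Gm (n * k) q +
      K * C₂ * (q : ℝ) ^ (157 / 200 : ℝ) + CV * (q : ℝ) ^ (1 / 4 : ℝ) := by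
    intro q hq
    have hq1 := (mem_Icc.1 (hJs hq)).1
    have hqc : Nat.Coprime q N := (Finset.mem_filter.1 hq).2
    exact one_q hV hB hCw0.le hCd0.le hCd h hN hK hq1 hqc
      (fun _ y => hCw q y) ha1 ha (hW q) hL
  have hnn : ∀ q ∈ Icc 1 Q, 0 ≤ ∑ k ∈ Icc 1 K, ∑' n : ℕ,
        B * CV * Un c (2 * (q : ℝ) ^ (3 / 2 : ℝ)) n * Gm (n * k) q +
      K * C₂ * (q : ℝ) ^ (157 / 200 : ℝ) + CV * (q : ℝ) ^ (1 / 4 : ℝ) := by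
    intro q _
    have : 0 ≤ ∑ k ∈ Icc 1 K, ∑' n : ℕ,
        B * CV * Un c (2 * (q : ℝ) ^ (3 / 2 : ℝ)) n * Gm (n * k) q := by
      refine Finset.sum_nonneg fun k _ => tsum_nonneg fun n => ?_
      have := Gm_nn (n * k) q
      have := Un_nn c (2 * (q : ℝ) ^ (3 / 2 : ℝ)) n
      positivity
    positivity
  refine (norm_sum_le _ _).trans ((Finset.sum_le_sum hone).trans
    ((Finset.sum_le_sum_of_subset_of_nonneg hJs fun q hq _ => hnn q hq).trans ?_))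
  rw [Finset.sum_add_distrib, Finset.sum_add_distrib]
  have hmain := main_sum (c := c) hCV.le (η := 1 / 100) (by norm_num) le_rfl hCd hCd0.le h
    (K := K) hQ hB
  -- first term
  have k1 : (K : ℝ) ^ (1 / 100 : ℝ) ≤ 2 * (Q : ℝ) ^ (1 / 800 : ℝ) := by
    calc (K : ℝ) ^ (1 / 100 : ℝ) ≤ (2 * (Q : ℝ) ^ (1 / 8 : ℝ)) ^ (1 / 100 : ℝ) :=
          Real.rpow_le_rpow hK0.le hKQ (by norm_num)
      _ = (2 : ℝ) ^ (1 / 100 : ℝ) * (Q : ℝ) ^ (1 / 800 : ℝ) := by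
          rw [Real.mul_rpow (by norm_num) (by positivity), ← Real.rpow_mul hQ0.le]
          norm_num
      _ ≤ 2 * (Q : ℝ) ^ (1 / 800 : ℝ) := by
          have := Real.rpow_le_rpow_of_exponent_le (show (1 : ℝ) ≤ 2 by norm_num)
            (show (1 / 100 : ℝ) ≤ 1 by norm_num)
          rw [Real.rpow_one] at this
          gcongr
  have z1 : (2 * (Q : ℝ) ^ (3 / 2 : ℝ)) ^ (1 / 2 + 3 * (1 / 100) : ℝ) ≤
      2 * (Q : ℝ) ^ (159 / 200 : ℝ) := by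
    rw [Real.mul_rpow (by norm_num) (by positivity), ← Real.rpow_mul hQ0.le]
    have h1 := Real.rpow_le_rpow_of_exponent_le (show (1 : ℝ) ≤ 2 by norm_num)
      (show (1 / 2 + 3 * (1 / 100) : ℝ) ≤ 1 by norm_num)
    rw [Real.rpow_one] at h1
    have h2 : (3 / 2 * (1 / 2 + 3 * (1 / 100)) : ℝ) = 159 / 200 := by norm_num
    rw [h2]
    gcongr
  have hexp : ∀ x : ℝ, x ≤ 39 / 20 → (Q : ℝ) ^ x ≤ (Q : ℝ) ^ (39 / 20 : ℝ) := fun x hx =>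
    Real.rpow_le_rpow_of_exponent_le hQ1 hx
  have T1 : ∑ q ∈ Icc 1 Q, ∑ k ∈ Icc 1 K, ∑' n : ℕ,
      B * CV * Un c (2 * (q : ℝ) ^ (3 / 2 : ℝ)) n * Gm (n * k) q ≤
      C₁ * (Q : ℝ) ^ (39 / 20 : ℝ) := by
    refine hmain.trans ?_
    calc (K : ℝ) * (K : ℝ) ^ (1 / 100 : ℝ) * (Q * (B * CV * Cd *
          (D * (2 * (Q : ℝ) ^ (3 / 2 : ℝ)) ^ (1 / 2 + 3 * (1 / 100) : ℝ) * S)))
        ≤ (2 * (Q : ℝ) ^ (1 / 8 : ℝ)) * (2 * (Q : ℝ) ^ (1 / 800 : ℝ)) * (Q * (B * CV * Cd *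
          (D * (2 * (Q : ℝ) ^ (159 / 200 : ℝ)) * S))) := by gcongr
      _ = C₁ * ((Q : ℝ) ^ (1 / 8 : ℝ) * (Q : ℝ) ^ (1 / 800 : ℝ) * (Q : ℝ) ^ (1 : ℝ) *
          (Q : ℝ) ^ (159 / 200 : ℝ)) := by
          rw [hC₁, Real.rpow_one]
          ring
      _ = C₁ * (Q : ℝ) ^ (1537 / 800 : ℝ) := by
          rw [← Real.rpow_add hQ0, ← Real.rpow_add hQ0, ← Real.rpow_add hQ0]
          norm_num
      _ ≤ _ := mul_le_mul_of_nonneg_left (hexp _ (by norm_num)) hC₁0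
  have T2 : ∑ q ∈ Icc 1 Q, K * C₂ * (q : ℝ) ^ (157 / 200 : ℝ) ≤
      2 * C₂ * (Q : ℝ) ^ (39 / 20 : ℝ) := by
    have h1 : ∀ q ∈ Icc 1 Q, K * C₂ * (q : ℝ) ^ (157 / 200 : ℝ) ≤
        (2 * (Q : ℝ) ^ (1 / 8 : ℝ)) * C₂ * (Q : ℝ) ^ (157 / 200 : ℝ) := by
      intro q hq
      have : (q : ℝ) ≤ Q := by exact_mod_cast (mem_Icc.1 hq).2
      gcongr
    refine (Finset.sum_le_sum h1).trans ?_
    rw [Finset.sum_const, Nat.card_Icc, nsmul_eq_mul, Nat.add_sub_cancel]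
    calc (Q : ℝ) * (2 * (Q : ℝ) ^ (1 / 8 : ℝ) * C₂ * (Q : ℝ) ^ (157 / 200 : ℝ))
        = 2 * C₂ * ((Q : ℝ) ^ (1 : ℝ) * (Q : ℝ) ^ (1 / 8 : ℝ) * (Q : ℝ) ^ (157 / 200 : ℝ)) := by
          rw [Real.rpow_one]
          ring
      _ = 2 * C₂ * (Q : ℝ) ^ (191 / 100 : ℝ) := by
          rw [← Real.rpow_add hQ0, ← Real.rpow_add hQ0]
          norm_num
      _ ≤ _ := mul_le_mul_of_nonneg_left (hexp _ (by norm_num)) (by positivity)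
  have T3 : ∑ q ∈ Icc 1 Q, CV * (q : ℝ) ^ (1 / 4 : ℝ) ≤ CV * (Q : ℝ) ^ (39 / 20 : ℝ) := by
    have h1 : ∀ q ∈ Icc 1 Q, CV * (q : ℝ) ^ (1 / 4 : ℝ) ≤ CV * (Q : ℝ) ^ (1 / 4 : ℝ) := by
      intro q hq
      have : (q : ℝ) ≤ Q := by exact_mod_cast (mem_Icc.1 hq).2
      gcongr
    refine (Finset.sum_le_sum h1).trans ?_
    rw [Finset.sum_const, Nat.card_Icc, nsmul_eq_mul, Nat.add_sub_cancel]
    calc (Q : ℝ) * (CV * (Q : ℝ) ^ (1 / 4 : ℝ))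
        = CV * ((Q : ℝ) ^ (1 : ℝ) * (Q : ℝ) ^ (1 / 4 : ℝ)) := by
          rw [Real.rpow_one]
          ring
      _ = CV * (Q : ℝ) ^ (5 / 4 : ℝ) := by
          rw [← Real.rpow_add hQ0]
          norm_num
      _ ≤ _ := mul_le_mul_of_nonneg_left (hexp _ (by norm_num)) hCV.le
  calc _ ≤ C₁ * (Q : ℝ) ^ (39 / 20 : ℝ) + 2 * C₂ * (Q : ℝ) ^ (39 / 20 : ℝ) +
        CV * (Q : ℝ) ^ (39 / 20 : ℝ) := add_le_add (add_le_add T1 T2) T3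
    _ = _ := by ring

end Pool.Agent.NH12.NV
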