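import Pool.Agent.NH12.NV.Sat
import Pool.Agent.NH12.NV.Moment2
import Pool.Agent.R399.TM.Cnt
import Pool.Agent.R399.TW.LSI
import Pool.Agent.R399.TW.InstC
import Pool.Agent.W435.WO.AFE
import Pool.Agent.W597.WO.Twist
import Pool.Agent.W138.WO.EUL
import Pool.Agent.W538.WO.Coef
import Pool.Agent.W216.CY.Div

/-!
# The twists of a newform of weight one as members of the large sieve machinery
-/

set_option autoImplicit false

namespace Pool.Agent.NH12.NV

open Complex Filter Topology Finset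
open Pool.Agent.W192.WO (Newf1)
open Pool.Agent.W192.CY (cf S_DIV)
open Pool.Agent.W192.HK (V0)
open Pool.Agent.R399.TW
open Pool.Agent.Y767.CA (GGc FEc)
open UpperHalfPlane MatrixGroups CongruenceSubgroup
open scoped ComplexConjugate

/-- the parameters of the Gamma factor -/
noncomputable def mu2 : Fin 2 → ℂ := ![0, 1]

lemma ggc_eq {R : ℝ} (hR : 0 < R) (s : ℂ) :
    GGc (R ^ 2) mu2 s = 2 * W388.GG 1 (R ^ 2) 1 s := by
  unfold GGc W388.GG mu2
  rw [Fin.prod_univ_two]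
  simp only [Matrix.cons_val_zero, Matrix.cons_val_one, add_zero, Int.cast_one, sub_self, zero_div]
  rw [Complex.Gammaℝ_mul_Gammaℝ_add_one, Complex.Gammaℂ_def, Real.sqrt_sq hR.le, mul_one]
  have h1 : ((R ^ 2 : ℝ) : ℂ) ^ (s / 2) = (R : ℂ) ^ s := by
    rw [Complex.ofReal_pow, ← Complex.cpow_nat_mul' ?_ ?_]
    · congr 1
      push_cast
      ring
    · rw [Complex.arg_ofReal_of_nonneg hR.le]
      simpa using Real.pi_pos
    · rw [Complex.arg_ofReal_of_nonneg hR.le]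
      simpa using Real.pi_pos.le
  have h2 : ((R / (2 * Real.pi) : ℝ) : ℂ) ^ s = (R : ℂ) ^ s * (2 * (Real.pi : ℂ)) ^ (-s) := by
    have h3 : ((R / (2 * Real.pi) : ℝ) : ℂ) = (R : ℂ) * (((2 * Real.pi)⁻¹ : ℝ) : ℂ) := by
      rw [div_eq_mul_inv]
      push_cast
      ring
    rw [h3, Complex.mul_cpow_ofReal_nonneg hR.le (by positivity)]
    congr 1
    rw [Complex.ofReal_inv, Complex.inv_cpow, Complex.cpow_neg]
    · push_cast
      rfl
    · rw [Complex.arg_ofReal_of_nonneg (by positivity)]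
      exact Real.pi_pos.ne
  rw [h1, h2]
  ring

lemma fec_of_fe2 {R : ℝ} (hR : 0 < R) {F : ℂ → ℂ} (h : W388.FE2 1 (R ^ 2) 1 F) :
    FEc (R ^ 2) mu2 F where
  diff := h.diff
  fe := by
    obtain ⟨w, hw, hfe⟩ := h.fe
    refine ⟨w, hw, fun s hs => ?_⟩
    have h0 : s.im ≠ 0 := by
      have := hs 0
      simpa [mu2] using this
    have h1 := hfe s h0
    rw [ggc_eq hR, ggc_eq hR, mul_assoc, h1, mul_assoc (2 : ℂ), map_mul (starRingEnd ℂ) 2]
    have h2 : conj (2 : ℂ) = 2 := Complex.conj_ofNat 2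
    rw [h2]
    ring
  vert := by
    intro a b
    obtain ⟨C, hC⟩ := h.vert a b
    refine ⟨2 * C, fun s h1 h2 h3 => ?_⟩
    have h4 : 1 ≤ |s.im| := by
      have := h3 0
      simpa [mu2] using this
    have h5 := hC s h1 h2 h4
    rw [ggc_eq hR, mul_assoc, norm_mul, Complex.norm_ofNat]
    linarith

lemma entire_eq {F G : ℂ → ℂ} (hF : Differentiable ℂ F) (hG : Differentiable ℂ G) {R : ℝ}
    (h : ∀ s : ℂ, R < s.re → F s = G s) : F = G := by
  have hFa : AnalyticOnNhd ℂ F Set.univ := fun z _ => hF.analyticAt z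
  have hGa : AnalyticOnNhd ℂ G Set.univ := fun z _ => hG.analyticAt z
  refine hFa.eq_of_eventuallyEq hGa (z₀ := ((R + 1 : ℝ) : ℂ)) ?_
  have ho : IsOpen {s : ℂ | R < s.re} := isOpen_lt continuous_const Complex.continuous_re
  have hm : ((R + 1 : ℝ) : ℂ) ∈ {s : ℂ | R < s.re} := by
    show R < ((R + 1 : ℝ) : ℂ).re
    rw [Complex.ofReal_re]
    linarith
  filter_upwards [ho.mem_nhds hm] with s hs
  exact h s hs

/-- everything about one twist -/
theorem twist_data {N : ℕ} [NeZero N] {η : DirichletCharacter ℂ N}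
    {f : CuspForm (Gamma1 N : Subgroup (GL (Fin 2) ℝ)) 1} {w : ℂ} (hf : Newf1 N η f w)
    (q : ℕ) [NeZero q] (χ : DirichletCharacter ℂ q) (hco : Nat.Coprime q N) (hpr : χ.IsPrimitive) :
    ∃ F : ℂ → ℂ, FEc ((N : ℝ) * (q : ℝ) ^ 2) mu2 F ∧
      (∀ s : ℂ, 1 < s.re → HasProd (fun p : Nat.Primes =>
        (1 - χ ((p : ℕ) : ZMod q) * cf f p * ((p : ℕ) : ℂ) ^ (-s) +
          χ ((p : ℕ) : ZMod q) ^ 2 * η ((p : ℕ) : ZMod N) *
            ((p : ℕ) : ℂ) ^ (-2 * s))⁻¹) (F s)) ∧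
      ∀ X Y : ℝ, 0 < X → 0 < Y → X * Y = N * (q : ℝ) ^ 2 / (4 * Real.pi ^ 2) →
        F (1 / 2) =
          ∑' n : ℕ, χ (n : ZMod q) * (cf f n * (Real.sqrt n : ℂ)) / n * (V0 (n / X) : ℂ) +
          (w * η (q : ZMod N)) * χ (N : ZMod q) *
              gaussSum χ (ZMod.stdAddChar (N := q)) ^ 2 / q *
            ∑' n : ℕ, (starRingEnd ℂ) (χ (n : ZMod q)) *
              (starRingEnd ℂ) (cf f n * (Real.sqrt n : ℂ)) / n * (V0 (n / Y) : ℂ) := by
  have htwist := Pool.Agent.W597.WO.w_twist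
  have hcoef := Pool.Agent.W538.WO.w_coef
  have heul := Pool.Agent.W138.WO.EUL.w_eul hcoef
  have hafe := Pool.Agent.W435.WO.w_afe htwist heul
  obtain ⟨F, hFd, hFs, hFa⟩ := hafe N η f w hf q χ hco hpr
  obtain ⟨μ, hμ⟩ := hcoef N η f w hf
  have hNn : 0 < N := Nat.pos_of_ne_zero (NeZero.ne N)
  have hqn : 0 < q := Nat.pos_of_ne_zero (NeZero.ne q)
  have hN : (0 : ℝ) < N := by exact_mod_cast hNn
  have hN1 : (1 : ℝ) ≤ N := by exact_mod_cast hNn
  have hq : (0 : ℝ) < q := by exact_mod_cast hqn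
  have hq1 : (1 : ℝ) ≤ q := by exact_mod_cast hqn
  set R : ℝ := Real.sqrt N * q with hR
  have hR0 : 0 < R := by positivity
  have hR1 : 1 ≤ R := by
    rw [hR]
    exact one_le_mul_of_one_le_of_one_le (Real.one_le_sqrt.2 hN1) hq1
  have hR2 : R ^ 2 = (N : ℝ) * (q : ℝ) ^ 2 := by
    rw [hR, mul_pow, Real.sq_sqrt hN.le]
  have hη : ‖η (q : ZMod N)‖ = 1 := by
    obtain ⟨u, hu⟩ := (ZMod.isUnit_iff_coprime q N).mpr hco
    rw [← hu]
    exact η.unit_norm_eq_one u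
  have hχN : ‖χ (N : ZMod q)‖ = 1 := by
    obtain ⟨u, hu⟩ := (ZMod.isUnit_iff_coprime N q).mpr hco.symm
    rw [← hu]
    exact χ.unit_norm_eq_one u
  have hw : ‖(w * η (q : ZMod N)) * χ (N : ZMod q) *
      gaussSum χ (ZMod.stdAddChar (N := q)) ^ 2 / q‖ = 1 := by
    have h1 := Pool.Agent.Helper112.MLS.norm_gauss q hpr
    rw [norm_div, norm_mul, norm_mul, norm_mul, hf.norm, hη, hχN, norm_pow, h1,
      Complex.norm_natCast]
    field_simp
  have hcb : ∀ n : ℕ, 1 ≤ n → ‖cf f n‖ ≤ (1 : ℝ) * (n : ℝ) ^ (1 : ℝ) := by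
    intro n hn
    have hn0 : (0 : ℝ) < n := by exact_mod_cast hn
    have h2 := hμ.cle n hn
    rw [norm_mul, Complex.norm_real, Real.norm_of_nonneg (Real.sqrt_nonneg _)] at h2
    have h4 : (0 : ℝ) < Real.sqrt n := Real.sqrt_pos.mpr hn0
    have h5 := le_of_mul_le_mul_right h2 h4
    have h6 : (n.divisors.card : ℝ) ≤ n := by exact_mod_cast Nat.card_divisors_le_self n
    rw [one_mul, Real.rpow_one]
    exact h5.trans h6
  have hc0 : cf f 0 = 0 := Pool.Agent.W435.WO.cf_zero f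
  have hsq : Real.sqrt (R ^ 2) * 1 = Real.sqrt N * q := by rw [Real.sqrt_sq hR0.le, mul_one]
  obtain ⟨G, hG, hGs⟩ := Pool.Agent.W108.TW.t_mellin 1 le_rfl (R ^ 2) 1 (by nlinarith) le_rfl
    (fun n => χ (n : ZMod q) * cf f n) 1 1 (by simp [hc0]) (by norm_num)
    (fun n hn => by
      rw [norm_mul]
      calc ‖χ (n : ZMod q)‖ * ‖cf f n‖ ≤ 1 * ((1 : ℝ) * (n : ℝ) ^ (1 : ℝ)) :=
            mul_le_mul (χ.norm_le_one _) (hcb n hn) (norm_nonneg _) zero_le_one
        _ = _ := by rw [one_mul]) _ hw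
    (fun t ht => by
      rw [hsq, zpow_one]
      exact htwist N η f w hf q χ hco hpr t ht)
  have hFG : F = G := by
    refine entire_eq hFd hG.diff (R := 3) fun s hs => ?_
    rw [hFs s (by linarith), hGs s (by linarith)]
    refine tsum_congr fun n => ?_
    simp
  subst hFG
  refine ⟨F, ?_, fun s hs => ?_, hFa⟩
  · rw [← hR2]
    exact fec_of_fe2 hR0 hG
  · rw [hFs s hs]
    exact (heul N η f w hf q χ s hs).2

end Pool.Agent.NH12.NV
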