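import Pool.Agent.NH12.NV.Mem2
import Pool.Agent.NH12.BA.Near2

/-!
# The mollifier
-/

set_option autoImplicit false

namespace Pool.Agent.NH12.NV

open Complex Filter Topology Finset
open ArithmeticFunction (vonMangoldt)
open Pool.Agent.R399.TW Pool.Agent.R399.TM Pool.Agent.NH12.BA
open scoped ComplexConjugate

lemma E_const_one (n : ℕ) (hn : n ≠ 0) : E (fun _ => (1 : ℝ)) n = 1 := by
  have h := E_unique (𝕜 := ℝ) (fun _ => (1 : ℝ)) (f := fun n => if n = 0 then 0 else 1)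
    (by simp) (by simp) (fun n => ?_) n
  · rw [← h]
    simp [hn]
  · rcases eq_or_ne n 0 with rfl | hn
    · simp
    · have h1 : ∀ p ∈ n.divisorsAntidiagonal,
          ((vonMangoldt p.1 : ℝ) : ℝ) * 1 * (if p.2 = 0 then (0 : ℝ) else 1) =
            vonMangoldt p.1 := by
        intro p hp
        have h2 : p.2 ≠ 0 := by
          have h3 := Nat.mem_divisorsAntidiagonal.1 hp
          intro h4
          rw [h4, mul_zero] at h3
          exact hn h3.1.symm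
        rw [if_neg h2]
        simp
      have h5 : ∑ p ∈ n.divisorsAntidiagonal, vonMangoldt p.1 = Real.log n := by
        rw [Nat.sum_divisorsAntidiagonal (fun a _ => vonMangoldt a)]
        exact ArithmeticFunction.vonMangoldt_sum
      simp only [if_neg hn]
      refine Eq.trans ?_ (Finset.sum_congr rfl h1).symm
      rw [h5]
      simp

lemma E_two_le (n : ℕ) (hn : n ≠ 0) : E (fun _ => (2 : ℝ)) n ≤ n.divisors.card := by
  have h1 : (fun _ : ℕ => (2 : ℝ)) = fun k : ℕ => (fun _ : ℕ => (1 : ℝ)) k + (fun _ => (1 : ℝ)) k := by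
    funext k
    norm_num
  rw [h1, ← E_add]
  unfold cv
  have h2 : ∀ p ∈ n.divisorsAntidiagonal, E (fun _ => (1 : ℝ)) p.1 * E (fun _ => (1 : ℝ)) p.2 = 1 := by
    intro p hp
    have h3 := Nat.mem_divisorsAntidiagonal.1 hp
    rw [E_const_one p.1 (fun h => hn (by rw [← h3.1, h, zero_mul])),
      E_const_one p.2 (fun h => hn (by rw [← h3.1, h, mul_zero])), mul_one]
  rw [Finset.sum_congr rfl h2, Finset.sum_const, nsmul_eq_mul, mul_one]
  have h4 : n.divisorsAntidiagonal.card = n.divisors.card := by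
    rw [← Nat.map_div_right_divisors, Finset.card_map]
  rw [h4]

variable {b₁ b₂ b₃ : ℝ → ℝ}

/-- the coefficients of the mollifier at `1/2` -/
noncomputable def am (b₁ : ℝ → ℝ) (l : ℝ) (c : ℕ → ℂ) (k : ℕ) : ℂ :=
  mw b₁ l c k * (k : ℂ) ^ (-(1 / 2) : ℂ)

lemma am_one (hw : Wts b₁ b₂ b₃) (l : ℝ) (c : ℕ → ℂ) : am b₁ l c 1 = 1 := by
  unfold am mw gw
  rw [E_one]
  have h1 := hw.one1 (Real.log ((1 : ℕ) : ℝ) / l) (by simp)
  rw [h1]
  simp

lemma am_le (hw : Wts b₁ b₂ b₃) : ∃ B : ℝ, 0 ≤ B ∧ ∀ (l : ℝ) (c : ℕ → ℂ), (∀ n, ‖c n‖ ≤ 2) →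
    ∀ k : ℕ, 1 ≤ k → ‖am b₁ l c k‖ ≤ B := by
  obtain ⟨C, hC0, hC⟩ := Pool.Agent.W216.CY.divisor_bound (1 / 100) (by norm_num)
  refine ⟨C, hC0.le, fun l c hc k hk => ?_⟩
  have hk0 : (0 : ℝ) < k := by exact_mod_cast hk
  have hk1 : (1 : ℝ) ≤ k := by exact_mod_cast hk
  have h1 := hw.mw_le l c k
  have h2 : E (fun n => ‖c n‖) k ≤ E (fun _ => (2 : ℝ)) k :=
    E_mono (fun n => norm_nonneg _) hc k
  have h3 := E_two_le k (by omega)
  have h4 := hC k (by omega)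
  unfold am
  rw [norm_mul]
  have h5 : ‖(k : ℂ) ^ (-(1 / 2) : ℂ)‖ = (k : ℝ) ^ (-(1 / 2) : ℝ) := by
    rw [← Complex.ofReal_natCast, Complex.norm_cpow_eq_rpow_re_of_pos hk0]
    congr 1
    simp
  rw [h5]
  calc ‖mw b₁ l c k‖ * (k : ℝ) ^ (-(1 / 2) : ℝ)
      ≤ (C * (k : ℝ) ^ (1 / 100 : ℝ)) * (k : ℝ) ^ (-(1 / 2) : ℝ) := by
        have := h1.trans (h2.trans (h3.trans h4))
        gcongr
    _ = C * (k : ℝ) ^ (1 / 100 + -(1 / 2) : ℝ) := by
        rw [mul_assoc, ← Real.rpow_add hk0]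
    _ ≤ C * 1 := by
        gcongr
        exact Real.rpow_le_one_of_one_le_of_nonpos hk1 (by norm_num)
    _ = C := mul_one C

/-- the mollified central value -/
lemma gw_half (l : ℝ) (c : ℕ → ℂ) {q : ℕ} (χ : DirichletCharacter ℂ q) (F : ℂ → ℂ) :
    Gw b₁ l c (chs χ) F (1 / 2) = F (1 / 2) *
      ∑ k ∈ Icc 1 (Xl l), am b₁ l c k * χ (k : ZMod q) := by
  unfold Gw Mg
  rw [LSeries_cut]
  congr 1
  refine Finset.sum_congr rfl fun k _ => ?_
  unfold am tw chs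
  ring

lemma Xl_ge {l : ℝ} (hl : 0 ≤ l) : 1 ≤ Xl l := by
  unfold Xl
  refine Nat.le_floor ?_
  rw [Nat.cast_one]
  exact Real.one_le_exp (by positivity)

lemma Xl_le_two {Q : ℕ} (hQ : 1 ≤ Q) :
    ((Xl (1 + Real.log Q) : ℕ) : ℝ) ≤ 2 * (Q : ℝ) ^ (1 / 8 : ℝ) := by
  have hQ0 : (0 : ℝ) < Q := by exact_mod_cast hQ
  refine (Xl_le _).trans ?_
  rw [mul_add, Real.exp_add, Real.rpow_def_of_pos hQ0, mul_comm (Real.log Q)]
  have h1 : Real.exp (1 / 8 * 1) ≤ 2 := by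
    have h2 := Real.exp_bound_div_one_sub_of_interval (x := 1 / 8 * 1) (by norm_num) (by norm_num)
    refine h2.trans ?_
    norm_num
  gcongr

end Pool.Agent.NH12.NV
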