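import Pool.Agent.NH12.NV.Part1

/-!
# The first moment
-/

set_option autoImplicit false

namespace Pool.Agent.NH12.NV

open Finset DirichletCharacter Pool.Agent.W192.CY Pool.Agent.W192.HK
open scoped ComplexConjugate

variable {V : ℝ → ℝ} {CV : ℝ} {c : ℕ → ℂ}

/-- the coefficients are small -/
structure Cb (c : ℕ → ℂ) (η D : ℝ) : Prop where
  z : c 0 = 0
  o : c 1 = 1
  D0 : 0 ≤ D
  b : ∀ n : ℕ, 1 ≤ n → ‖c n‖ / n ≤ D * (n : ℝ) ^ (η - 1 / 2)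

lemma Un_zero {η D : ℝ} (h : Cb c η D) (Z : ℝ) : Un c Z 0 = 0 := by
  unfold Un
  simp [h.z]

lemma Un_le {η D : ℝ} (hη : 0 < η) (hη1 : η ≤ 1 / 100) (h : Cb c η D) {Z : ℝ} (hZ : 0 < Z)
    (n : ℕ) : Un c Z n * (n : ℝ) ^ η ≤ D * Z ^ (1 / 2 + 3 * η) * (n : ℝ) ^ (-(1 + η)) := by
  have hD := h.D0
  rcases Nat.eq_zero_or_pos n with rfl | hn
  · rw [Un_zero h, zero_mul]
    positivity
  · have hn0 : (0 : ℝ) < n := by exact_mod_cast hn
    have h1 := term_le hη hη1 hZ hn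
    have h2 := h.b n hn
    unfold Un
    calc ‖c n‖ / n * Real.exp (-(n / Z)) * (n : ℝ) ^ η
        ≤ D * (n : ℝ) ^ (η - 1 / 2) * Real.exp (-(n / Z)) * (n : ℝ) ^ η := by gcongr
      _ = D * ((n : ℝ) ^ (2 * η - 1 / 2) * Real.exp (-(n / Z))) := by
          rw [show 2 * η - 1 / 2 = (η - 1 / 2) + η by ring, Real.rpow_add hn0]
          ring
      _ ≤ D * (Z ^ (1 / 2 + 3 * η) * (n : ℝ) ^ (-(1 + η))) := by gcongr
      _ = _ := by ring

lemma Un_sum {η D : ℝ} (hη : 0 < η) (hη1 : η ≤ 1 / 100) (h : Cb c η D) {Z : ℝ} (hZ : 0 < Z) :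
    Summable (fun n => Un c Z n * (n : ℝ) ^ η) ∧ Summable (Un c Z) ∧
    ∑' n : ℕ, Un c Z n * (n : ℝ) ^ η ≤
      D * Z ^ (1 / 2 + 3 * η) * (∑' n : ℕ, (n : ℝ) ^ (-(1 + η))) ∧
    ∑' n : ℕ, Un c Z n ≤ D * Z ^ (1 / 2 + 3 * η) * (∑' n : ℕ, (n : ℝ) ^ (-(1 + η))) := by
  have hs : Summable fun n : ℕ => (n : ℝ) ^ (-(1 + η)) := Real.summable_nat_rpow.2 (by linarith)
  have hs' := hs.mul_left (D * Z ^ (1 / 2 + 3 * η))
  have h0 : ∀ n : ℕ, 0 ≤ Un c Z n * (n : ℝ) ^ η := fun n =>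
    mul_nonneg (Un_nn c Z n) (by positivity)
  have h1 := Un_le hη hη1 h hZ
  have h2 : ∀ n : ℕ, Un c Z n ≤ Un c Z n * (n : ℝ) ^ η := by
    intro n
    rcases Nat.eq_zero_or_pos n with rfl | hn
    · rw [Un_zero h, zero_mul]
    · exact le_mul_of_one_le_right (Un_nn c Z n) (Real.one_le_rpow (by exact_mod_cast hn) hη.le)
  have s1 : Summable (fun n => Un c Z n * (n : ℝ) ^ η) := Summable.of_nonneg_of_le h0 h1 hs'
  have s2 : Summable (Un c Z) := Summable.of_nonneg_of_le (Un_nn c Z) h2 s1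
  have t1 : ∑' n : ℕ, Un c Z n * (n : ℝ) ^ η ≤
      D * Z ^ (1 / 2 + 3 * η) * (∑' n : ℕ, (n : ℝ) ^ (-(1 + η))) := by
    rw [← tsum_mul_left]
    exact Summable.tsum_le_tsum h1 s1 hs'
  exact ⟨s1, s2, t1, (Summable.tsum_le_tsum h2 s2 s1).trans t1⟩

/-- the divisors -/
lemma sum_Gm_le' {η C : ℝ} (hη : 0 < η)
    (hC : ∀ n : ℕ, 1 ≤ n → (n.divisors.card : ℝ) ≤ C * (n : ℝ) ^ η) (hC0 : 0 ≤ C) (Q n k : ℕ) :
    ∑ q ∈ Icc 1 Q, Gm (n * k) q ≤ Q * (C * ((n : ℝ) ^ η * (k : ℝ) ^ η)) := by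
  rcases Nat.lt_or_ge (n * k) 2 with h | h
  · have h1 : ∀ q ∈ Icc 1 Q, Gm (n * k) q = 0 := by
      intro q _
      unfold Gm
      rw [if_pos (by omega)]
    rw [Finset.sum_congr rfl h1, Finset.sum_const_zero]
    positivity
  · refine (sum_Gm_le h).trans ?_
    have h1 := hC (n * k - 1) (by omega)
    have h2 : ((n * k - 1 : ℕ) : ℝ) ^ η ≤ ((n * k : ℕ) : ℝ) ^ η := by
      refine Real.rpow_le_rpow (by positivity) ?_ hη.le
      exact_mod_cast Nat.sub_le _ _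
    rw [Nat.cast_mul, Real.mul_rpow (by positivity) (by positivity)] at h2
    have h3 : ((n * k - 1).divisors.card : ℝ) ≤ C * ((n : ℝ) ^ η * (k : ℝ) ^ η) :=
      h1.trans (mul_le_mul_of_nonneg_left h2 hC0)
    gcongr

/-- the main parts of all moduli -/
theorem main_sum (hCV : 0 ≤ CV) {η D C : ℝ} (hη : 0 < η) (hη1 : η ≤ 1 / 100)
    (hC : ∀ n : ℕ, 1 ≤ n → (n.divisors.card : ℝ) ≤ C * (n : ℝ) ^ η) (hC0 : 0 ≤ C)
    (h : Cb c η D) {Q K : ℕ} (hQ : 1 ≤ Q) {B : ℝ} (hB : 0 ≤ B) :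
    ∑ q ∈ Icc 1 Q, ∑ k ∈ Icc 1 K, ∑' n : ℕ,
      B * CV * Un c (2 * (q : ℝ) ^ (3 / 2 : ℝ)) n * Gm (n * k) q ≤
    (K : ℝ) * (K : ℝ) ^ η * (Q * (B * CV * C * (D * (2 * (Q : ℝ) ^ (3 / 2 : ℝ)) ^ (1 / 2 + 3 * η) *
      (∑' n : ℕ, (n : ℝ) ^ (-(1 + η)))))) := by
  have hQ0 : (0 : ℝ) < Q := by exact_mod_cast hQ
  set Z : ℝ := 2 * (Q : ℝ) ^ (3 / 2 : ℝ) with hZd
  have hZ : 0 < Z := by positivity
  obtain ⟨s1, s2, t1, -⟩ := Un_sum hη hη1 h hZ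
  set S : ℝ := D * Z ^ (1 / 2 + 3 * η) * (∑' n : ℕ, (n : ℝ) ^ (-(1 + η))) with hS
  have hGs : ∀ k q : ℕ, Summable fun n : ℕ => B * CV * Un c Z n * Gm (n * k) q := by
    intro k q
    refine Summable.of_nonneg_of_le (fun n => ?_) (fun n => ?_) (s2.mul_left (B * CV * q))
    · have := Un_nn c Z n
      have := Gm_nn (n * k) q
      positivity
    · have h1 := Un_nn c Z n
      have h2 := Gm_le (n * k) q
      calc B * CV * Un c Z n * Gm (n * k) q ≤ B * CV * Un c Z n * q := by gcongr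
        _ = _ := by ring
  have hstep : ∀ q ∈ Icc 1 Q, ∑ k ∈ Icc 1 K, ∑' n : ℕ,
      B * CV * Un c (2 * (q : ℝ) ^ (3 / 2 : ℝ)) n * Gm (n * k) q ≤
      ∑ k ∈ Icc 1 K, ∑' n : ℕ, B * CV * Un c Z n * Gm (n * k) q := by
    intro q hq
    rw [mem_Icc] at hq
    have hq0 : (0 : ℝ) < q := by exact_mod_cast hq.1
    have hqQ : (q : ℝ) ≤ Q := by exact_mod_cast hq.2
    refine Finset.sum_le_sum fun k _ => ?_
    have hle : ∀ n : ℕ, B * CV * Un c (2 * (q : ℝ) ^ (3 / 2 : ℝ)) n * Gm (n * k) q ≤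
        B * CV * Un c Z n * Gm (n * k) q := by
      intro n
      have h1 : Un c (2 * (q : ℝ) ^ (3 / 2 : ℝ)) n ≤ Un c Z n := by
        refine Un_mono c (by positivity) ?_ n
        rw [hZd]
        gcongr
      have := Gm_nn (n * k) q
      gcongr
    have hnn : ∀ n : ℕ, 0 ≤ B * CV * Un c (2 * (q : ℝ) ^ (3 / 2 : ℝ)) n * Gm (n * k) q := by
      intro n
      have := Gm_nn (n * k) q
      have := Un_nn c (2 * (q : ℝ) ^ (3 / 2 : ℝ)) n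
      positivity
    exact Summable.tsum_le_tsum hle (Summable.of_nonneg_of_le hnn hle (hGs k q)) (hGs k q)
  refine (Finset.sum_le_sum hstep).trans ?_
  rw [Finset.sum_comm]
  have hk : ∀ k ∈ Icc 1 K, ∑ q ∈ Icc 1 Q, ∑' n : ℕ, B * CV * Un c Z n * Gm (n * k) q ≤
      (K : ℝ) ^ η * (Q * (B * CV * C * S)) := by
    intro k hk
    rw [mem_Icc] at hk
    have hk0 : (0 : ℝ) < k := by exact_mod_cast hk.1
    have hkK : (k : ℝ) ^ η ≤ (K : ℝ) ^ η := Real.rpow_le_rpow hk0.le (by exact_mod_cast hk.2) hη.le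
    rw [← Summable.tsum_finsetSum fun q _ => hGs k q]
    have hle : ∀ n : ℕ, ∑ q ∈ Icc 1 Q, B * CV * Un c Z n * Gm (n * k) q ≤
        (Q * (B * CV * C) * (k : ℝ) ^ η) * (Un c Z n * (n : ℝ) ^ η) := by
      intro n
      rw [← Finset.mul_sum]
      have h1 := sum_Gm_le' hη hC hC0 Q n k
      have h2 := Un_nn c Z n
      calc B * CV * Un c Z n * ∑ q ∈ Icc 1 Q, Gm (n * k) q
          ≤ B * CV * Un c Z n * (Q * (C * ((n : ℝ) ^ η * (k : ℝ) ^ η))) := by gcongr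
        _ = _ := by ring
    have hnn : ∀ n : ℕ, 0 ≤ ∑ q ∈ Icc 1 Q, B * CV * Un c Z n * Gm (n * k) q := by
      intro n
      refine Finset.sum_nonneg fun q _ => ?_
      have := Gm_nn (n * k) q
      have := Un_nn c Z n
      positivity
    have hs3 := s1.mul_left (Q * (B * CV * C) * (k : ℝ) ^ η)
    refine (Summable.tsum_le_tsum hle (Summable.of_nonneg_of_le hnn hle hs3) hs3).trans ?_
    rw [tsum_mul_left]
    have hD := h.D0
    calc Q * (B * CV * C) * (k : ℝ) ^ η * ∑' n : ℕ, Un c Z n * (n : ℝ) ^ η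
        ≤ Q * (B * CV * C) * (k : ℝ) ^ η * S := by gcongr
      _ ≤ Q * (B * CV * C) * (K : ℝ) ^ η * S := by
          have : 0 ≤ S := by rw [hS]; positivity
          gcongr
      _ = _ := by ring
  refine (Finset.sum_le_sum hk).trans (le_of_eq ?_)
  rw [Finset.sum_const, Nat.card_Icc, nsmul_eq_mul, Nat.add_sub_cancel]
  ring

end Pool.Agent.NH12.NV
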