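import Pool.Agent.NH12.NV.Sums
import Pool.Agent.W192.HK.Parts0

/-!
# The two parts of the first moment for one modulus
-/

set_option autoImplicit false

namespace Pool.Agent.NH12.NV

open Finset DirichletCharacter Pool.Agent.W192.CY Pool.Agent.W192.HK
open scoped ComplexConjugate

variable {V : ℝ → ℝ} {CV : ℝ} {c : ℕ → ℂ}

/-- the majorant of a term -/
noncomputable def Un (c : ℕ → ℂ) (Z : ℝ) (n : ℕ) : ℝ := ‖c n‖ / n * Real.exp (-(n / Z))

lemma Un_nn (c : ℕ → ℂ) (Z : ℝ) (n : ℕ) : 0 ≤ Un c Z n := by unfold Un; positivity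

lemma Un_mono (c : ℕ → ℂ) {Z Z' : ℝ} (hZ : 0 < Z) (h : Z ≤ Z') (n : ℕ) : Un c Z n ≤ Un c Z' n := by
  unfold Un
  refine mul_le_mul_of_nonneg_left ?_ (by positivity)
  apply Real.exp_le_exp.2
  have : (n : ℝ) / Z' ≤ n / Z := by gcongr
  linarith

lemma V_le (hV : VH V CV) {X : ℝ} (hX : 0 < X) (n : ℕ) :
    ‖c n / n * (V (n / X) : ℂ)‖ ≤ CV * Un c (2 * X) n := by
  have h1 := hV.dec (n / X) (by positivity)
  have e1 : (n : ℝ) / X / 2 = n / (2 * X) := by
    rw [div_div, mul_comm X 2]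
  rw [e1] at h1
  unfold Un
  rw [norm_mul, norm_div, Complex.norm_natCast, Complex.norm_real, Real.norm_eq_abs]
  calc ‖c n‖ / n * |V (n / X)| ≤ ‖c n‖ / n * (CV * Real.exp (-(n / (2 * X)))) := by gcongr
    _ = _ := by ring

/-- **the main part** -/
theorem part_main (hV : VH V CV) (hc0 : c 0 = 0) (hc1 : c 1 = 1) {q : ℕ} [NeZero q] {K : ℕ}
    (hK : 1 ≤ K) {a : ℕ → ℂ} {B : ℝ} (ha1 : a 1 = 1) (ha : ∀ k, 1 ≤ k → ‖a k‖ ≤ B) {X : ℝ}
    (hX : 0 < X) (hs : Summable (Un c (2 * X))) :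
    ‖∑ χ ∈ pc q, (∑' n : ℕ, χ (n : ZMod q) * c n / n * (V (n / X) : ℂ)) *
        (∑ k ∈ Icc 1 K, a k * χ (k : ZMod q)) - (V (1 / X) : ℂ) * ((pc q).card : ℂ)‖ ≤
      ∑ k ∈ Icc 1 K, ∑' n : ℕ, B * CV * Un c (2 * X) n * Gm (n * k) q := by
  have hCV := hV.pos
  have hB0 : 0 ≤ B := (norm_nonneg _).trans (ha 1 le_rfl)
  set v : ℕ → ℂ := fun n => c n / n * (V (n / X) : ℂ) with hv
  have hvle : ∀ n, ‖v n‖ ≤ CV * Un c (2 * X) n := fun n => V_le hV hX n
  have hvs : ∀ χ : DirichletCharacter ℂ q, Summable fun n : ℕ => χ (n : ZMod q) * v n := by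
    intro χ
    refine Summable.of_norm_bounded (hs.mul_left CV) fun n => ?_
    rw [norm_mul]
    calc _ ≤ 1 * (CV * Un c (2 * X) n) :=
          mul_le_mul (DirichletCharacter.norm_le_one χ _) (hvle n) (norm_nonneg _) zero_le_one
      _ = _ := one_mul _
  set T : ℕ → ℕ → ℂ := fun k n => a k * v n * ∑ χ ∈ pc q, χ ((n * k : ℕ) : ZMod q) with hT
  have hGn := fun m => Gm_nn m q
  have hGs : ∀ k : ℕ, Summable fun n : ℕ => B * CV * Un c (2 * X) n * Gm (n * k) q := by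
    intro k
    refine Summable.of_nonneg_of_le (fun n => ?_) (fun n => ?_) (hs.mul_left (B * CV * q))
    · have := Un_nn c (2 * X) n
      have := hGn (n * k)
      positivity
    · have h1 := Un_nn c (2 * X) n
      have h2 := Gm_le (n * k) q
      calc B * CV * Un c (2 * X) n * Gm (n * k) q ≤ B * CV * Un c (2 * X) n * q := by gcongr
        _ = _ := by ring
  have hpcle : ∀ x : ZMod q, ‖∑ χ ∈ pc q, χ x‖ ≤ (pc q).card := by
    intro x
    refine (norm_sum_le _ _).trans ?_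
    have : ∑ χ ∈ pc q, ‖χ x‖ ≤ ∑ _χ ∈ pc q, (1 : ℝ) :=
      Finset.sum_le_sum fun χ _ => DirichletCharacter.norm_le_one χ _
    rwa [Finset.sum_const, nsmul_eq_mul, mul_one] at this
  have hTs : ∀ k ∈ Icc 1 K, Summable (T k) := by
    intro k hk
    rw [mem_Icc] at hk
    refine Summable.of_norm_bounded (hs.mul_left (B * CV * (pc q).card)) fun n => ?_
    rw [hT]
    simp only [norm_mul]
    calc ‖a k‖ * ‖v n‖ * ‖∑ χ ∈ pc q, χ ((n * k : ℕ) : ZMod q)‖
        ≤ B * (CV * Un c (2 * X) n) * (pc q).card := by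
          have := ha k hk.1
          have := hvle n
          have := hpcle ((n * k : ℕ) : ZMod q)
          have := Un_nn c (2 * X) n
          gcongr
      _ = _ := by ring
  have e1 : ∑ χ ∈ pc q, (∑' n : ℕ, χ (n : ZMod q) * c n / n * (V (n / X) : ℂ)) *
        (∑ k ∈ Icc 1 K, a k * χ (k : ZMod q)) = ∑ k ∈ Icc 1 K, ∑' n : ℕ, T k n := by
    have h1 : ∀ χ ∈ pc q, (∑' n : ℕ, χ (n : ZMod q) * c n / n * (V (n / X) : ℂ)) *
        (∑ k ∈ Icc 1 K, a k * χ (k : ZMod q)) =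
        ∑ k ∈ Icc 1 K, ∑' n : ℕ, a k * v n * χ ((n * k : ℕ) : ZMod q) := by
      intro χ _
      have h2 : ∑' n : ℕ, χ (n : ZMod q) * c n / n * (V (n / X) : ℂ) =
          ∑' n : ℕ, χ (n : ZMod q) * v n := tsum_congr fun n => by rw [hv]; ring
      rw [h2, Finset.mul_sum]
      refine Finset.sum_congr rfl fun k _ => ?_
      rw [← tsum_mul_right]
      refine tsum_congr fun n => ?_
      rw [Nat.cast_mul, map_mul]
      ring
    rw [Finset.sum_congr rfl h1, Finset.sum_comm]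
    refine Finset.sum_congr rfl fun k hk => ?_
    have hsum : ∀ χ ∈ pc q, Summable fun n : ℕ => a k * v n * χ ((n * k : ℕ) : ZMod q) := by
      intro χ _
      refine ((hvs χ).mul_left (a k * χ (k : ZMod q))).congr fun n => ?_
      rw [Nat.cast_mul, map_mul]
      ring
    rw [← Summable.tsum_finsetSum hsum]
    refine tsum_congr fun n => ?_
    rw [hT]
    simp only
    rw [Finset.mul_sum]
  set T₀ : ℕ → ℕ → ℂ := fun k n => if k = 1 ∧ n = 1 then
    (V (1 / X) : ℂ) * ((pc q).card : ℂ) else 0 with hT₀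
  have hT₀s : ∀ k, Summable (T₀ k) := by
    intro k
    refine summable_of_hasFiniteSupport ((Set.finite_singleton 1).subset fun n hn => ?_)
    rw [Function.mem_support, hT₀] at hn
    by_contra hcon
    exact hn (if_neg fun h => hcon h.2)
  have e2 : (V (1 / X) : ℂ) * ((pc q).card : ℂ) = ∑ k ∈ Icc 1 K, ∑' n : ℕ, T₀ k n := by
    rw [Finset.sum_eq_single 1]
    · rw [tsum_eq_single 1]
      · simp [hT₀]
      · intro n hn
        simp [hT₀, hn]
    · intro k _ hk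
      simp [hT₀, hk]
    · intro h
      exact absurd (mem_Icc.2 ⟨le_rfl, hK⟩) h
  rw [e1, e2, ← Finset.sum_sub_distrib]
  refine (norm_sum_le _ _).trans (Finset.sum_le_sum fun k hk => ?_)
  have hk1 := (mem_Icc.1 hk).1
  rw [← (hTs k hk).tsum_sub (hT₀s k)]
  refine tsum_of_norm_bounded (hGs k).hasSum fun n => ?_
  have hU := Un_nn c (2 * X) n
  by_cases h : k = 1 ∧ n = 1
  · obtain ⟨rfl, rfl⟩ := h
    have h3 : T 1 1 - T₀ 1 1 = 0 := by
      simp [hT, hT₀, hv, ha1, hc1]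
    rw [h3, norm_zero]
    have := hGn (1 * 1)
    positivity
  · have h3 : T₀ k n = 0 := by rw [hT₀]; simp only [if_neg h]
    rw [h3, sub_zero]
    rcases Nat.eq_zero_or_pos n with rfl | hn
    · have : T k 0 = 0 := by simp [hT, hv]
      rw [this, norm_zero]
      have := hGn (0 * k)
      positivity
    · have hm : 2 ≤ n * k := by
        by_contra hcon
        have h4 : n * k = 1 := by
          have : 0 < n * k := Nat.mul_pos hn hk1
          omega
        exact h ⟨Nat.dvd_one.1 ⟨n, by rw [mul_comm]; exact h4.symm⟩, Nat.dvd_one.1 ⟨k, h4.symm⟩⟩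
      rw [hT]
      simp only [norm_mul]
      have h5 := norm_sum_le_Gm (q := q) hm
      have h6 := ha k hk1
      have h7 := hvle n
      calc ‖a k‖ * ‖v n‖ * ‖∑ χ ∈ pc q, χ ((n * k : ℕ) : ZMod q)‖
          ≤ B * (CV * Un c (2 * X) n) * Gm (n * k) q := by gcongr
        _ = _ := by ring

/-- **the dual part** -/
theorem part_dual (hV : VH V CV) {q : ℕ} [NeZero q] {N : ℕ} (hco : Nat.Coprime q N) {K : ℕ}
    {a : ℕ → ℂ} {B : ℝ} (hB : 0 ≤ B) (ha : ∀ k, 1 ≤ k → ‖a k‖ ≤ B) {Y : ℝ}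
    (hY : 0 < Y) (hs : Summable (Un c (2 * Y))) {W : ℂ} (hW : ‖W‖ ≤ 1) {KB : ℝ} (hKB : 0 ≤ KB)
    (hk : ∀ y : (ZMod q)ˣ,
      ‖∑ χ ∈ pc q, χ (y : ZMod q) * gaussSum χ (ZMod.stdAddChar (N := q)) ^ 2‖ ≤ KB) :
    ‖∑ χ ∈ pc q, (W * χ (N : ZMod q) * gaussSum χ (ZMod.stdAddChar (N := q)) ^ 2 / q *
          ∑' n : ℕ, conj (χ (n : ZMod q)) * conj (c n) / n * (V (n / Y) : ℂ)) *
        (∑ k ∈ Icc 1 K, a k * χ (k : ZMod q))‖ ≤
      K * (B * (KB / q) * (CV * ∑' n : ℕ, Un c (2 * Y) n)) := by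
  have hCV := hV.pos
  have hq0 : (0 : ℝ) < q := by exact_mod_cast Nat.pos_of_ne_zero (NeZero.ne q)
  set v : ℕ → ℂ := fun n => conj (c n) / n * (V (n / Y) : ℂ) with hv
  have hvle : ∀ n, ‖v n‖ ≤ CV * Un c (2 * Y) n := by
    intro n
    have h1 := V_le (c := c) hV hY n
    rw [hv]
    simp only [norm_mul, norm_div, RCLike.norm_conj]
    rwa [norm_mul, norm_div] at h1
  have hvs : ∀ χ : DirichletCharacter ℂ q, Summable fun n : ℕ => conj (χ (n : ZMod q)) * v n := by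
    intro χ
    refine Summable.of_norm_bounded (hs.mul_left CV) fun n => ?_
    rw [norm_mul, RCLike.norm_conj]
    calc _ ≤ 1 * (CV * Un c (2 * Y) n) :=
          mul_le_mul (DirichletCharacter.norm_le_one χ _) (hvle n) (norm_nonneg _) zero_le_one
      _ = _ := one_mul _
  set S : ℕ → ℕ → ℂ := fun k n => ∑ χ ∈ pc q, (χ (N : ZMod q) * χ (k : ZMod q) *
    conj (χ (n : ZMod q))) * gaussSum χ (ZMod.stdAddChar (N := q)) ^ 2 with hS
  have hSle : ∀ k n, ‖S k n‖ ≤ KB := by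
    intro k n
    by_cases hkc : Nat.Coprime k q
    swap
    · have : S k n = 0 := by
        refine Finset.sum_eq_zero fun χ _ => ?_
        rw [χ.map_nonunit fun h => hkc ((ZMod.isUnit_iff_coprime k q).1 h)]
        simp
      rw [this, norm_zero]
      exact hKB
    by_cases hnc : Nat.Coprime n q
    swap
    · have : S k n = 0 := by
        refine Finset.sum_eq_zero fun χ _ => ?_
        rw [χ.map_nonunit (a := (n : ZMod q)) fun h => hnc ((ZMod.isUnit_iff_coprime n q).1 h)]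
        simp
      rw [this, norm_zero]
      exact hKB
    obtain ⟨uk, huk⟩ := (ZMod.isUnit_iff_coprime k q).2 hkc
    obtain ⟨un, hun⟩ := (ZMod.isUnit_iff_coprime n q).2 hnc
    obtain ⟨uN, huN⟩ := (ZMod.isUnit_iff_coprime N q).2 hco.symm
    refine le_trans (le_of_eq ?_) (hk (uN * uk * un⁻¹))
    congr 1
    refine Finset.sum_congr rfl fun χ _ => ?_
    congr 1
    rw [← huk, ← hun, ← huN, Units.val_mul, Units.val_mul, map_mul, map_mul]
    congr 1
    have h1 : conj (χ (un : ZMod q)) = χ⁻¹ (un : ZMod q) := by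
      rw [← MulChar.star_eq_inv χ, MulChar.star_apply]
      rfl
    rw [h1, MulChar.inv_apply]
    congr 1
    exact Ring.inverse_unit un
  set R : ℕ → ℕ → ℂ := fun k n => (W / q) * a k * v n * S k n with hR
  have hRs : ∀ k ∈ Icc 1 K, Summable (R k) ∧
      ‖∑' n : ℕ, R k n‖ ≤ B * (KB / q) * (CV * ∑' n : ℕ, Un c (2 * Y) n) := by
    intro k hk'
    have hk1 := (mem_Icc.1 hk').1
    have hle : ∀ n, ‖R k n‖ ≤ B * (KB / q) * (CV * Un c (2 * Y) n) := by
      intro n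
      have h1 := ha k hk1
      have h2 := hvle n
      have h3 := hSle k n
      have h4 := Un_nn c (2 * Y) n
      rw [hR]
      simp only [norm_mul, norm_div, Complex.norm_natCast]
      calc ‖W‖ / q * ‖a k‖ * ‖v n‖ * ‖S k n‖ ≤ 1 / q * B * (CV * Un c (2 * Y) n) * KB := by gcongr
        _ = _ := by ring
    have hs' : Summable fun n => B * (KB / q) * (CV * Un c (2 * Y) n) :=
      (hs.mul_left CV).mul_left _
    refine ⟨Summable.of_norm_bounded hs' hle, ?_⟩
    have h5 := tsum_of_norm_bounded hs'.hasSum hle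
    rwa [tsum_mul_left, tsum_mul_left] at h5
  have e1 : ∑ χ ∈ pc q, (W * χ (N : ZMod q) * gaussSum χ (ZMod.stdAddChar (N := q)) ^ 2 / q *
          ∑' n : ℕ, conj (χ (n : ZMod q)) * conj (c n) / n * (V (n / Y) : ℂ)) *
        (∑ k ∈ Icc 1 K, a k * χ (k : ZMod q)) = ∑ k ∈ Icc 1 K, ∑' n : ℕ, R k n := by
    have h1 : ∀ χ ∈ pc q, (W * χ (N : ZMod q) * gaussSum χ (ZMod.stdAddChar (N := q)) ^ 2 / q *
          ∑' n : ℕ, conj (χ (n : ZMod q)) * conj (c n) / n * (V (n / Y) : ℂ)) *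
        (∑ k ∈ Icc 1 K, a k * χ (k : ZMod q)) =
        ∑ k ∈ Icc 1 K, ∑' n : ℕ, ((W / q) * a k * (χ (N : ZMod q) * χ (k : ZMod q)) *
          gaussSum χ (ZMod.stdAddChar (N := q)) ^ 2) * (conj (χ (n : ZMod q)) * v n) := by
      intro χ _
      have h2 : ∑' n : ℕ, conj (χ (n : ZMod q)) * conj (c n) / n * (V (n / Y) : ℂ) =
          ∑' n : ℕ, conj (χ (n : ZMod q)) * v n := tsum_congr fun n => by rw [hv]; ring
      rw [h2, Finset.mul_sum]
      refine Finset.sum_congr rfl fun k _ => ?_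
      rw [tsum_mul_left]
      ring
    rw [Finset.sum_congr rfl h1, Finset.sum_comm]
    refine Finset.sum_congr rfl fun k hk => ?_
    rw [← Summable.tsum_finsetSum fun χ _ => (hvs χ).mul_left _]
    refine tsum_congr fun n => ?_
    rw [hR]
    simp only [hS]
    rw [Finset.mul_sum]
    refine Finset.sum_congr rfl fun χ _ => ?_
    ring
  rw [e1]
  refine (norm_sum_le _ _).trans ?_
  refine (Finset.sum_le_sum fun k hk => (hRs k hk).2).trans (le_of_eq ?_)
  rw [Finset.sum_const, Nat.card_Icc, nsmul_eq_mul, Nat.add_sub_cancel]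

end Pool.Agent.NH12.NV
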