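import Mathlib

/-!
# Sums over the primitive Dirichlet characters
-/

set_option autoImplicit false

namespace Pool.Agent.NH12.NV

open Finset DirichletCharacter

open Classical in
/-- the primitive characters modulo `q` -/
noncomputable def pc (q : ℕ) : Finset (DirichletCharacter ℂ q) :=
  (Finset.univ : Finset (DirichletCharacter ℂ q)).filter fun χ => χ.IsPrimitive

lemma mem_pc {q : ℕ} {χ : DirichletCharacter ℂ q} : χ ∈ pc q ↔ χ.IsPrimitive := by
  unfold pc
  simp

/-- the sum of `χ(m)` over the primitive characters -/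
noncomputable def sp (m q : ℕ) : ℂ :=
  if h : q = 0 then 0 else haveI : NeZero q := ⟨h⟩; ∑ χ ∈ pc q, χ (m : ZMod q)

lemma sp_eq (m q : ℕ) [NeZero q] : sp m q = ∑ χ ∈ pc q, χ (m : ZMod q) := by
  unfold sp
  rw [dif_neg (NeZero.ne q)]

lemma sp_fiber {m q : ℕ} [NeZero q] (hm : Nat.Coprime m q) {d : ℕ} (hd : d ∣ q) :
    ∑ χ ∈ (Finset.univ : Finset (DirichletCharacter ℂ q)).filter (fun χ => χ.conductor = d),
      χ (m : ZMod q) = sp m d := by
  classical
  have hd0 : d ≠ 0 := by
    rintro rfl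
    exact NeZero.ne q (Nat.eq_zero_of_zero_dvd hd)
  have : NeZero d := ⟨hd0⟩
  rw [sp_eq]
  have himg : (Finset.univ : Finset (DirichletCharacter ℂ q)).filter (fun χ => χ.conductor = d) =
      (pc d).image (changeLevel (R := ℂ) hd) := by
    ext χ
    simp only [Finset.mem_filter, Finset.mem_univ, true_and, Finset.mem_image, mem_pc]
    constructor
    · intro hc
      subst hc
      exact ⟨χ.primitiveCharacter, χ.primitiveCharacter_isPrimitive,
        χ.changeLevel_primitiveCharacter⟩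
    · rintro ⟨χ0, h0, rfl⟩
      rw [DirichletCharacter.conductor_changeLevel]
      exact h0
  rw [himg, Finset.sum_image fun a _ b _ h => DirichletCharacter.changeLevel_injective hd h]
  refine Finset.sum_congr rfl fun χ _ => ?_
  have h1 : IsUnit ((m : ℕ) : ZMod q) := (ZMod.isUnit_iff_coprime m q).2 hm
  obtain ⟨u, hu⟩ := h1
  rw [← hu, DirichletCharacter.changeLevel_eq_cast_of_dvd χ hd u, hu, ZMod.cast_natCast hd]

lemma sum_sp {m q : ℕ} (hq : 0 < q) (hm : Nat.Coprime m q) :
    ∑ d ∈ q.divisors, sp m d = if (m : ZMod q) = 1 then (Nat.totient q : ℂ) else 0 := by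
  have : NeZero q := ⟨hq.ne'⟩
  classical
  rw [← DirichletCharacter.sum_characters_eq ℂ (m : ZMod q)]
  have hmap : ∀ χ ∈ (Finset.univ : Finset (DirichletCharacter ℂ q)), χ.conductor ∈ q.divisors :=
    fun χ _ => Nat.mem_divisors.2 ⟨χ.conductor_dvd_level, hq.ne'⟩
  rw [← Finset.sum_fiberwise_of_maps_to hmap]
  refine Finset.sum_congr rfl fun d hd => ?_
  exact (sp_fiber hm (Nat.dvd_of_mem_divisors hd)).symm

/-- the bound -/
lemma norm_sp_le {m q : ℕ} (hq : 0 < q) (hm : Nat.Coprime m q) :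
    ‖sp m q‖ ≤ ∑ d ∈ q.divisors.filter (fun d => (m : ZMod d) = 1), (Nat.totient d : ℝ) := by
  classical
  have h := (ArithmeticFunction.sum_eq_iff_sum_mul_moebius_eq_on (R := ℂ) (f := fun d => sp m d)
    (g := fun d => if (m : ZMod d) = 1 then (Nat.totient d : ℂ) else 0) {d | Nat.Coprime m d}
    (fun a b hab hb => Nat.Coprime.coprime_dvd_right hab hb)).1
      (fun n hn hs => sum_sp hn hs) q hq hm
  rw [← h]
  refine (norm_sum_le _ _).trans ?_
  rw [Nat.sum_divisorsAntidiagonal' (fun a b => ‖((ArithmeticFunction.moebius a : ℤ) : ℂ) *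
    if (m : ZMod b) = 1 then (Nat.totient b : ℂ) else 0‖), Finset.sum_filter]
  refine Finset.sum_le_sum fun d _ => ?_
  have h1 : ‖((ArithmeticFunction.moebius (q / d) : ℤ) : ℂ)‖ ≤ 1 := by
    rw [Complex.norm_intCast]
    exact_mod_cast ArithmeticFunction.abs_moebius_le_one
  rw [norm_mul]
  split_ifs with h2
  · rw [Complex.norm_natCast]
    calc _ ≤ 1 * (Nat.totient d : ℝ) := by gcongr
      _ = _ := one_mul _
  · simp

end Pool.Agent.NH12.NV
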