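import Pool.Agent.R399.TW.InstE
import Pool.Agent.R399.TW.Vm
import Pool.Agent.W192.WO.Parts

/-!
# The Satake parameters of a newform of weight one
-/

set_option autoImplicit false

namespace Pool.Agent.NH12.NV

open Complex
open Pool.Agent.W192.WO (Newf1)
open Pool.Agent.W192.CY (cf)
open scoped ComplexConjugate

lemma satake {a e : ℂ} (he : ‖e‖ = 1) (hc : conj a = conj e * a) (ha : ‖a‖ ≤ 2) :
    ∃ α β : ℂ, ‖α‖ = 1 ∧ ‖β‖ = 1 ∧ α + β = a ∧ α * β = e := by
  obtain ⟨t, ht⟩ := IsAlgClosed.exists_pow_nat_eq e (n := 2) (by norm_num)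
  have ht1 : ‖t‖ = 1 := by
    have h1 : ‖t‖ ^ 2 = 1 := by rw [← norm_pow, ht, he]
    exact (pow_eq_one_iff_of_nonneg (norm_nonneg t) (by norm_num)).1 h1
  have htt : t * conj t = 1 := by
    rw [Complex.mul_conj, Complex.normSq_eq_norm_sq, ht1]
    simp
  set y : ℂ := a * conj t with hy
  have hya : a = t * y := by
    calc a = (t * conj t) * a := by rw [htt, one_mul]
      _ = _ := by rw [hy]; ring
  have hyr : conj y = y := by
    rw [hy, map_mul, Complex.conj_conj, hc, ← ht, map_pow]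
    calc conj t ^ 2 * a * t = (t * conj t) * (a * conj t) := by ring
      _ = _ := by rw [htt, one_mul]
  obtain ⟨r, hr⟩ := Complex.conj_eq_iff_real.1 hyr
  have hrn : |r| ≤ 2 := by
    have h1 : ‖y‖ ≤ 2 := by rw [hy, norm_mul, RCLike.norm_conj, ht1, mul_one]; exact ha
    rwa [hr, Complex.norm_real] at h1
  obtain ⟨h1, h2⟩ := abs_le.1 hrn
  set θ := Real.arccos (r / 2) with hθ
  have hcos : Real.cos θ = r / 2 := Real.cos_arccos (by linarith) (by linarith)
  have hsum : Complex.exp (θ * I) + Complex.exp (-θ * I) = r := by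
    rw [← Complex.two_cos, ← Complex.ofReal_cos, hcos]
    push_cast
    ring
  refine ⟨t * Complex.exp (θ * I), t * Complex.exp (-θ * I), ?_, ?_, ?_, ?_⟩
  · rw [norm_mul, ht1, Complex.norm_exp_ofReal_mul_I, one_mul]
  · have h3 := Complex.norm_exp_ofReal_mul_I (-θ)
    rw [Complex.ofReal_neg] at h3
    rw [norm_mul, ht1, h3, one_mul]
  · rw [← mul_add, hsum, hya, hr]
  · have h3 : Complex.exp (θ * I) * Complex.exp (-θ * I) = 1 := by
      rw [← Complex.exp_add, neg_mul, add_neg_cancel, Complex.exp_zero]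
    calc t * Complex.exp (θ * I) * (t * Complex.exp (-θ * I))
        = t ^ 2 * (Complex.exp (θ * I) * Complex.exp (-θ * I)) := by ring
      _ = e := by rw [h3, ht, mul_one]

open UpperHalfPlane MatrixGroups CongruenceSubgroup

/-- the Satake parameters -/
theorem exists_satake {N : ℕ} [NeZero N] {η : DirichletCharacter ℂ N}
    {f : CuspForm (Gamma1 N : Subgroup (GL (Fin 2) ℝ)) 1} {w : ℂ} (hf : Newf1 N η f w) :
    ∃ α : ℕ → Fin 2 → ℂ, (∀ p j, ‖α p j‖ ≤ 1) ∧
      ∀ p : ℕ, p.Prime → α p 0 + α p 1 = cf f p ∧ α p 0 * α p 1 = η (p : ZMod N) := by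
  have h : ∀ p : ℕ, ∃ x : Fin 2 → ℂ, (∀ j, ‖x j‖ ≤ 1) ∧ (p.Prime →
      x 0 + x 1 = cf f p ∧ x 0 * x 1 = η (p : ZMod N)) := by
    intro p
    by_cases hp : p.Prime
    · by_cases hN : p ∣ N
      · have hη : η (p : ZMod N) = 0 := by
          apply MulChar.map_nonunit
          rw [ZMod.isUnit_iff_coprime]
          intro h
          have := Nat.Coprime.eq_one_of_dvd h hN
          exact hp.one_lt.ne' this
        refine ⟨![cf f p, 0], fun j => ?_, fun _ => ⟨by simp, by simp [hη]⟩⟩
        fin_cases j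
        · simpa using hf.bad p hp hN
        · simp
      · have hu : ‖η (p : ZMod N)‖ = 1 := by
          have hun : IsUnit (p : ZMod N) := by
            rw [ZMod.isUnit_iff_coprime]
            exact (Nat.Prime.coprime_iff_not_dvd hp).2 hN
          obtain ⟨v, hv⟩ := hun
          rw [← hv]
          exact η.unit_norm_eq_one v
        obtain ⟨a, b, h1, h2, h3, h4⟩ := satake hu (hf.conj p hp hN) (hf.good p hp hN)
        refine ⟨![a, b], fun j => ?_, fun _ => ⟨by simpa using h3, by simpa using h4⟩⟩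
        fin_cases j
        · simp [h1]
        · simp [h2]
    · exact ⟨0, fun j => by simp, fun h => absurd h hp⟩
  choose α h1 h2 using h
  exact ⟨α, h1, h2⟩

end Pool.Agent.NH12.NV
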