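import Pool.Agent.NH12.NV.KP

/-!
# Elementary sums for the first moment
-/

set_option autoImplicit false

namespace Pool.Agent.NH12.NV

open Finset DirichletCharacter

/-- the majorant of the sum of `χ(m)` over the primitive characters, `m ≥ 2` -/
noncomputable def Gm (m q : ℕ) : ℝ :=
  if m ≤ 1 then 0 else ∑ d ∈ q.divisors.filter (fun d => (m : ZMod d) = 1), (Nat.totient d : ℝ)

lemma Gm_nn (m q : ℕ) : 0 ≤ Gm m q := by
  unfold Gm
  split_ifs
  · exact le_rfl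
  · positivity

lemma Gm_le (m q : ℕ) : Gm m q ≤ q := by
  unfold Gm
  split_ifs
  · positivity
  · refine le_trans (Finset.sum_le_sum_of_subset_of_nonneg (Finset.filter_subset _ _)
      fun _ _ _ => by positivity) (le_of_eq ?_)
    exact_mod_cast Nat.sum_totient q

lemma norm_sum_le_Gm {m q : ℕ} [NeZero q] (hm : 2 ≤ m) :
    ‖∑ χ ∈ pc q, χ (m : ZMod q)‖ ≤ Gm m q := by
  have hq : 0 < q := Nat.pos_of_ne_zero (NeZero.ne q)
  by_cases hc : Nat.Coprime m q
  · unfold Gm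
    rw [if_neg (by omega), ← sp_eq]
    exact norm_sp_le hq hc
  · have h1 : ∑ χ ∈ pc q, χ (m : ZMod q) = 0 := by
      refine Finset.sum_eq_zero fun χ _ => ?_
      exact χ.map_nonunit fun h => hc ((ZMod.isUnit_iff_coprime m q).1 h)
    rw [h1, norm_zero]
    exact Gm_nn m q

/-- the sum over the moduli -/
lemma sum_Gm_le {m Q : ℕ} (hm : 2 ≤ m) :
    ∑ q ∈ Icc 1 Q, Gm m q ≤ Q * ((m - 1).divisors.card : ℝ) := by
  classical
  have h1 : ∀ q ∈ Icc 1 Q, Gm m q ≤
      ∑ d ∈ (m - 1).divisors, if d ∣ q then (d : ℝ) else 0 := by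
    intro q hq
    rw [mem_Icc] at hq
    unfold Gm
    rw [if_neg (by omega)]
    rw [← Finset.sum_filter]
    have h2 : q.divisors.filter (fun d => (m : ZMod d) = 1) ⊆
        (m - 1).divisors.filter (fun d => d ∣ q) := by
      intro d hd
      rw [Finset.mem_filter, Nat.mem_divisors] at hd
      rw [Finset.mem_filter, Nat.mem_divisors]
      refine ⟨⟨?_, by omega⟩, hd.1.1⟩
      have h3 : (((m - 1 : ℕ) : ℕ) : ZMod d) = 0 := by
        rw [Nat.cast_sub (by omega), hd.2]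
        simp
      exact (ZMod.natCast_eq_zero_iff (m - 1) d).1 h3
    calc ∑ d ∈ q.divisors.filter (fun d => (m : ZMod d) = 1), (Nat.totient d : ℝ)
        ≤ ∑ d ∈ (m - 1).divisors.filter (fun d => d ∣ q), (Nat.totient d : ℝ) :=
          Finset.sum_le_sum_of_subset_of_nonneg h2 fun _ _ _ => by positivity
      _ ≤ _ := Finset.sum_le_sum fun d _ => by exact_mod_cast Nat.totient_le d
  refine (Finset.sum_le_sum h1).trans ?_
  rw [Finset.sum_comm]
  have h2 : ∀ d ∈ (m - 1).divisors, ∑ q ∈ Icc 1 Q, (if d ∣ q then (d : ℝ) else 0) ≤ Q := by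
    intro d hd
    have hd0 : 0 < d := Nat.pos_of_mem_divisors hd
    rw [← Finset.sum_filter, Finset.sum_const, nsmul_eq_mul]
    have h3 : ((Icc 1 Q).filter fun q => d ∣ q).card = Q / d := by
      have : Icc 1 Q = Ioc 0 Q := by
        ext x
        simp only [mem_Icc, mem_Ioc]
        omega
      rw [this]
      exact Nat.Ioc_filter_dvd_card_eq_div Q d
    rw [h3]
    exact_mod_cast Nat.div_mul_le_self Q d
  refine (Finset.sum_le_sum h2).trans (le_of_eq ?_)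
  rw [Finset.sum_const, nsmul_eq_mul]
  ring

lemma rpow_le_exp_one {x p : ℝ} (hx : 0 ≤ x) (hp0 : 0 ≤ p) (hp1 : p ≤ 1) :
    x ^ p ≤ Real.exp x := by
  have h1 := Real.add_one_le_exp x
  rcases le_total x 1 with h | h
  · exact (Real.rpow_le_one hx h hp0).trans (Real.one_le_exp hx)
  · have := Real.rpow_le_rpow_of_exponent_le h hp1
    rw [Real.rpow_one] at this
    linarith

/-- the decay of a term -/
lemma term_le {η Z : ℝ} (hη : 0 < η) (hη1 : η ≤ 1 / 100) (hZ : 0 < Z) {n : ℕ} (hn : 1 ≤ n) :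
    (n : ℝ) ^ (2 * η - 1 / 2) * Real.exp (-(n / Z)) ≤ Z ^ (1 / 2 + 3 * η) * (n : ℝ) ^ (-(1 + η)) := by
  have hn0 : (0 : ℝ) < n := by exact_mod_cast hn
  have h1 := rpow_le_exp_one (x := n / Z) (p := 1 / 2 + 3 * η) (by positivity) (by linarith)
    (by linarith)
  have h2 : (n : ℝ) ^ (1 / 2 + 3 * η) ≤ Z ^ (1 / 2 + 3 * η) * Real.exp (n / Z) := by
    have h3 : (n : ℝ) = Z * (n / Z) := by field_simp
    calc (n : ℝ) ^ (1 / 2 + 3 * η) = (Z * (n / Z)) ^ (1 / 2 + 3 * η) := by rw [← h3]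
      _ = Z ^ (1 / 2 + 3 * η) * (n / Z) ^ (1 / 2 + 3 * η) :=
          Real.mul_rpow hZ.le (by positivity)
      _ ≤ _ := by gcongr
  have h3 : (n : ℝ) ^ (2 * η - 1 / 2) = (n : ℝ) ^ (1 / 2 + 3 * η) * (n : ℝ) ^ (-(1 + η)) := by
    rw [← Real.rpow_add hn0]
    congr 1
    ring
  have h4 : Real.exp (n / Z) * Real.exp (-(n / Z)) = 1 := by
    rw [← Real.exp_add]
    simp
  rw [h3]
  calc (n : ℝ) ^ (1 / 2 + 3 * η) * (n : ℝ) ^ (-(1 + η)) * Real.exp (-(n / Z))
      ≤ (Z ^ (1 / 2 + 3 * η) * Real.exp (n / Z)) * (n : ℝ) ^ (-(1 + η)) *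
        Real.exp (-(n / Z)) := by gcongr
    _ = Z ^ (1 / 2 + 3 * η) * (n : ℝ) ^ (-(1 + η)) * (Real.exp (n / Z) * Real.exp (-(n / Z))) := by
        ring
    _ = _ := by rw [h4, mul_one]

end Pool.Agent.NH12.NV
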